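import Mathlib

/-!
# Self-avoiding polygons on the square lattice: definitions and the perimeter

A unit square `[i,i+1] × [j,j+1]` is denoted by its lower left corner `(i,j)`.
-/

set_option autoImplicit false

namespace Pool.Agent.Q291.SAP

/-- Lattice points, and also unit squares (a square is denoted by its lower left corner). -/
abbrev Pt := ℤ × ℤ

/-- Nearest neighbours of the square lattice. -/
def Adj (u w : Pt) : Prop :=
  (u.2 = w.2 ∧ (w.1 = u.1 + 1 ∨ u.1 = w.1 + 1)) ∨ (u.1 = w.1 ∧ (w.2 = u.2 + 1 ∨ u.2 = w.2 + 1))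

/-- The cyclic path `v` of `2m` steps runs through the edge between `p` and `p'`. -/
def Uses {m : ℕ} (v : ZMod (2 * m) → Pt) (p p' : Pt) : Prop :=
  ∃ k, (v k = p ∧ v (k + 1) = p') ∨ (v k = p' ∧ v (k + 1) = p)

/-- The finite set `S` of unit squares is the interior of the simple closed lattice path `v` with
`2m` steps: the points `v k`, `k ∈ ℤ/2m`, are distinct, consecutive ones are nearest neighbours,
and the edges of the path are exactly the edges which separate a square of `S` from a square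
outside `S` (first the horizontal edge from `(i,y)` to `(i+1,y)`, between the squares `(i,y-1)` and
`(i,y)`, then the vertical edge from `(x,j)` to `(x,j+1)`, between `(x-1,j)` and `(x,j)`). -/
structure Encloses (m : ℕ) (v : ZMod (2 * m) → Pt) (S : Finset Pt) : Prop where
  inj : Function.Injective v
  adj : ∀ k, Adj (v k) (v (k + 1))
  hor : ∀ i y, Xor ((i, y - 1) ∈ S) ((i, y) ∈ S) ↔ Uses v (i, y) (i + 1, y)
  ver : ∀ x j, Xor ((x - 1, j) ∈ S) ((x, j) ∈ S) ↔ Uses v (x, j) (x, j + 1)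

/-- `S` is the set of unit squares enclosed by a self-avoiding polygon of half-perimeter `m`. -/
def IsPolygon (m : ℕ) (S : Finset Pt) : Prop := ∃ v : ZMod (2 * m) → Pt, Encloses m v S

/-- The translate with bounding box starting at the origin: one representative for each polygon up
to translation. -/
def Normal (S : Finset Pt) : Prop :=
  (∀ c ∈ S, 0 ≤ c.1 ∧ 0 ≤ c.2) ∧ (∃ c ∈ S, c.1 = 0) ∧ (∃ c ∈ S, c.2 = 0)

/-- Self-avoiding polygons of half-perimeter `m` up to translation, given by the squares they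
enclose. -/
def polygons (m : ℕ) : Set (Finset Pt) := {S | IsPolygon m S ∧ Normal S}

/-- Row `j` of `S`. -/
def row (S : Finset Pt) (j : ℤ) : Finset ℤ := (S.filter (fun c => c.2 = j)).image Prod.fst

/-- Column `i` of `S`. -/
def col (S : Finset Pt) (i : ℤ) : Finset ℤ := (S.filter (fun c => c.1 = i)).image Prod.snd

theorem mem_row {S : Finset Pt} {j x : ℤ} : x ∈ row S j ↔ (x, j) ∈ S := by
  simp only [row, Finset.mem_image, Finset.mem_filter, Prod.exists, exists_and_right,
    exists_eq_right]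

theorem mem_col {S : Finset Pt} {i y : ℤ} : y ∈ col S i ↔ (i, y) ∈ S := by
  simp only [col, Finset.mem_image, Finset.mem_filter, Prod.exists, exists_eq_right]

open Classical in
/-- Boundary points of a finite set of integers. -/
noncomputable def bd (T : Finset ℤ) : Finset ℤ :=
  (T ∪ T.image (· + 1)).filter (fun x => Xor (x - 1 ∈ T) (x ∈ T))

open Classical in
theorem mem_bd {T : Finset ℤ} {x : ℤ} : x ∈ bd T ↔ Xor (x - 1 ∈ T) (x ∈ T) := by
  unfold bd
  rw [Finset.mem_filter, Finset.mem_union, Finset.mem_image]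
  constructor
  · exact fun h => h.2
  · intro h
    refine ⟨?_, h⟩
    rcases h with ⟨h, -⟩ | ⟨h, -⟩
    · exact Or.inr ⟨x - 1, h, by ring⟩
    · exact Or.inl h

theorem two_le_bd {T : Finset ℤ} (hT : T.Nonempty) : 2 ≤ (bd T).card := by
  have h1 : T.min' hT ∈ bd T := by
    rw [mem_bd]
    refine Or.inr ⟨T.min'_mem hT, fun h => ?_⟩
    have := T.min'_le _ h
    omega
  have h2 : T.max' hT + 1 ∈ bd T := by
    rw [mem_bd]
    refine Or.inl ⟨by simpa using T.max'_mem hT, fun h => ?_⟩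
    have := T.le_max' _ h
    omega
  have h3 : T.min' hT ≠ T.max' hT + 1 := by
    have := T.min'_le_max' hT
    omega
  rw [← Finset.card_pair h3]
  apply Finset.card_le_card
  intro x hx
  rw [Finset.mem_insert, Finset.mem_singleton] at hx
  rcases hx with rfl | rfl
  · exact h1
  · exact h2

/-- A finite set of integers with at most two boundary points is an interval. -/
theorem ordConn_of_bd {T : Finset ℤ} (h : (bd T).card ≤ 2) {a b x : ℤ} (ha : a ∈ T) (hb : b ∈ T)
    (h1 : a ≤ x) (h2 : x ≤ b) : x ∈ T := by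
  by_contra hx
  have hT : T.Nonempty := ⟨a, ha⟩
  -- the boundary points min, max + 1, and one between
  have h3 : T.min' hT ∈ bd T := by
    rw [mem_bd]
    refine Or.inr ⟨T.min'_mem hT, fun h => ?_⟩
    have := T.min'_le _ h
    omega
  have h4 : T.max' hT + 1 ∈ bd T := by
    rw [mem_bd]
    refine Or.inl ⟨by simpa using T.max'_mem hT, fun h => ?_⟩
    have := T.le_max' _ h
    omega
  have key : ∃ z ∈ bd T, a < z ∧ z ≤ x := by
    by_contra hcon
    push Not at hcon
    have : ∀ n : ℕ, a + n ≤ x → a + n ∈ T := by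
      intro n
      induction n with
      | zero => intro _; simpa using ha
      | succ n ih =>
        intro hn
        push_cast at hn ⊢
        have h5 := ih (by linarith)
        by_contra h6
        have h7 : a + (n + 1) ∈ bd T := by
          rw [mem_bd]
          refine Or.inl ⟨?_, h6⟩
          have : a + ((n : ℤ) + 1) - 1 = a + n := by ring
          rw [this]; exact h5
        have h8 := hcon _ h7 (by linarith [Int.natCast_nonneg n])
        linarith
    have h9 := this (x - a).toNat (by rw [Int.toNat_of_nonneg (by linarith)]; linarith)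
    rw [Int.toNat_of_nonneg (by linarith)] at h9
    apply hx
    have : a + (x - a) = x := by ring
    rwa [this] at h9
  obtain ⟨z, hz, hz1, hz2⟩ := key
  have h5 := T.min'_le _ ha
  have h6 := T.le_max' _ hb
  have h7 : ({T.min' hT, z, T.max' hT + 1} : Finset ℤ) ⊆ bd T := by
    intro w hw
    simp only [Finset.mem_insert, Finset.mem_singleton] at hw
    rcases hw with rfl | rfl | rfl
    · exact h3
    · exact hz
    · exact h4
  have h8 := Finset.card_le_card h7
  rw [Finset.card_insert_of_notMem, Finset.card_pair] at h8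
  · omega
  · omega
  · simp only [Finset.mem_insert, Finset.mem_singleton]
    omega

/-- Indices of the nonempty rows and columns. -/
def rows (S : Finset Pt) : Finset ℤ := S.image Prod.snd

def cols (S : Finset Pt) : Finset ℤ := S.image Prod.fst

/-- The perimeter: the number of unit edges which separate a square of `S` from a square outside
`S` (vertical edges row by row, then horizontal edges column by column). -/
noncomputable def perim (S : Finset Pt) : ℕ :=
  ∑ j ∈ rows S, (bd (row S j)).card + ∑ i ∈ cols S, (bd (col S i)).card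

/-- Finite nonempty sets `S` of squares with bounding box starting at the origin, perimeter at most
`2m`, and consecutive nonempty rows and columns (in particular all polyominoes, that is edge
connected sets, also with holes, of perimeter `2m`). -/
def Wide (m : ℕ) : Set (Finset Pt) :=
  {S | Normal S ∧ perim S ≤ 2 * m ∧
    (∀ i ∈ rows S, ∀ k ∈ rows S, ∀ j, i ≤ j → j ≤ k → j ∈ rows S) ∧
    (∀ i ∈ cols S, ∀ k ∈ cols S, ∀ j, i ≤ j → j ≤ k → j ∈ cols S)}

theorem mem_rows {S : Finset Pt} {j : ℤ} : j ∈ rows S ↔ (row S j).Nonempty := by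
  unfold rows
  rw [Finset.mem_image]
  constructor
  · rintro ⟨c, hc, rfl⟩
    exact ⟨c.1, mem_row.2 hc⟩
  · rintro ⟨x, hx⟩
    exact ⟨(x, j), mem_row.1 hx, rfl⟩

theorem mem_cols {S : Finset Pt} {i : ℤ} : i ∈ cols S ↔ (col S i).Nonempty := by
  unfold cols
  rw [Finset.mem_image]
  constructor
  · rintro ⟨c, hc, rfl⟩
    exact ⟨c.2, mem_col.2 hc⟩
  · rintro ⟨x, hx⟩
    exact ⟨(i, x), mem_col.1 hx, rfl⟩

theorem mem_bd_row {S : Finset Pt} {x j : ℤ} :
    x ∈ bd (row S j) ↔ Xor ((x - 1, j) ∈ S) ((x, j) ∈ S) := by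
  rw [mem_bd, mem_row, mem_row]

theorem mem_bd_col {S : Finset Pt} {i y : ℤ} :
    y ∈ bd (col S i) ↔ Xor ((i, y - 1) ∈ S) ((i, y) ∈ S) := by
  rw [mem_bd, mem_col, mem_col]

variable {m : ℕ} {v : ZMod (2 * m) → Pt} {S : Finset Pt}

/-- The number of boundary edges is at most the number of steps. -/
theorem perimeter_le (hm : 1 ≤ m) (h : Encloses m v S) :
    ∑ j ∈ rows S, (bd (row S j)).card + ∑ i ∈ cols S, (bd (col S i)).card ≤ 2 * m := by
  classical
  haveI : NeZero (2 * m) := ⟨by omega⟩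
  let g : ZMod (2 * m) → Pt × Pt := fun k => (v k ⊓ v (k + 1), v k ⊔ v (k + 1))
  have hg : (Finset.univ.image g).card ≤ 2 * m := by
    refine Finset.card_image_le.trans ?_
    rw [Finset.card_univ, ZMod.card]
  let VE : Finset (Σ _ : ℤ, ℤ) := (rows S).sigma (fun j => bd (row S j))
  let HE : Finset (Σ _ : ℤ, ℤ) := (cols S).sigma (fun i => bd (col S i))
  let fV : (Σ _ : ℤ, ℤ) → Pt × Pt := fun e => ((e.2, e.1), (e.2, e.1 + 1))
  let fH : (Σ _ : ℤ, ℤ) → Pt × Pt := fun e => ((e.1, e.2), (e.1 + 1, e.2))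
  have c1 : VE.card = ∑ j ∈ rows S, (bd (row S j)).card := Finset.card_sigma _ _
  have c2 : HE.card = ∑ i ∈ cols S, (bd (col S i)).card := Finset.card_sigma _ _
  have i1 : (VE.image fV).card = VE.card := by
    apply Finset.card_image_of_injective
    rintro ⟨a, b⟩ ⟨c, d⟩ hh
    simp only [fV, Prod.mk.injEq] at hh
    obtain ⟨⟨h1, h2⟩, -⟩ := hh
    subst h1; subst h2; rfl
  have i2 : (HE.image fH).card = HE.card := by
    apply Finset.card_image_of_injective
    rintro ⟨a, b⟩ ⟨c, d⟩ hh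
    simp only [fH, Prod.mk.injEq] at hh
    obtain ⟨⟨h1, h2⟩, -⟩ := hh
    subst h1; subst h2; rfl
  have hdis : Disjoint (VE.image fV) (HE.image fH) := by
    rw [Finset.disjoint_left]
    intro e he he'
    rw [Finset.mem_image] at he he'
    obtain ⟨⟨a, b⟩, -, rfl⟩ := he
    obtain ⟨⟨c, d⟩, -, h2⟩ := he'
    simp only [fV, fH, Prod.mk.injEq] at h2
    omega
  rw [← c1, ← c2, ← i1, ← i2, ← Finset.card_union_of_disjoint hdis]
  refine (Finset.card_le_card ?_).trans hg
  intro e he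
  rw [Finset.mem_union] at he
  rw [Finset.mem_image]
  rcases he with he | he
  · rw [Finset.mem_image] at he
    obtain ⟨⟨j, x⟩, hx, rfl⟩ := he
    have h1 : x ∈ bd (row S j) := (Finset.mem_sigma.1 hx).2
    rw [mem_bd_row, h.ver] at h1
    obtain ⟨k, hk | hk⟩ := h1
    · refine ⟨k, Finset.mem_univ _, ?_⟩
      simp only [g, fV, hk.1, hk.2, Prod.mk_inf_mk, Prod.mk_sup_mk]
      simp
    · refine ⟨k, Finset.mem_univ _, ?_⟩
      simp only [g, fV, hk.1, hk.2, Prod.mk_inf_mk, Prod.mk_sup_mk]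
      simp
  · rw [Finset.mem_image] at he
    obtain ⟨⟨i, y⟩, hy, rfl⟩ := he
    have h1 : y ∈ bd (col S i) := (Finset.mem_sigma.1 hy).2
    rw [mem_bd_col, h.hor] at h1
    obtain ⟨k, hk | hk⟩ := h1
    · refine ⟨k, Finset.mem_univ _, ?_⟩
      simp only [g, fH, hk.1, hk.2, Prod.mk_inf_mk, Prod.mk_sup_mk]
      simp
    · refine ⟨k, Finset.mem_univ _, ?_⟩
      simp only [g, fH, hk.1, hk.2, Prod.mk_inf_mk, Prod.mk_sup_mk]
      simp

/-- A path with points below and above a level crosses it. -/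
theorem crossing (hm : 1 ≤ m) (f : ZMod (2 * m) → ℤ) (c : ℤ)
    (hf : ∀ k, f (k + 1) ≤ f k + 1 ∧ f k ≤ f (k + 1) + 1) {k1 k2 : ZMod (2 * m)} (h1 : f k1 ≤ c)
    (h2 : c + 1 ≤ f k2) : ∃ k, f k = c ∧ f (k + 1) = c + 1 := by
  haveI : NeZero (2 * m) := ⟨by omega⟩
  by_contra hcon
  push Not at hcon
  have : ∀ n : ℕ, f (k1 + n) ≤ c := by
    intro n
    induction n with
    | zero => simpa using h1
    | succ n ih =>
      have h3 := (hf (k1 + n)).1
      have h4 : k1 + ((n + 1 : ℕ) : ZMod (2 * m)) = k1 + n + 1 := by push_cast; ring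
      rw [h4]
      rcases lt_or_eq_of_le ih with h5 | h5
      · linarith
      · have := hcon _ h5
        omega
  have h3 := this (k2 - k1).val
  rw [ZMod.natCast_zmod_val, add_sub_cancel] at h3
  linarith

theorem step_snd (h : Encloses m v S) (k : ZMod (2 * m)) :
    (v (k + 1)).2 ≤ (v k).2 + 1 ∧ (v k).2 ≤ (v (k + 1)).2 + 1 := by
  rcases h.adj k with ⟨h1, h2⟩ | ⟨h1, h2⟩ <;> omega

theorem step_fst (h : Encloses m v S) (k : ZMod (2 * m)) :
    (v (k + 1)).1 ≤ (v k).1 + 1 ∧ (v k).1 ≤ (v (k + 1)).1 + 1 := by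
  rcases h.adj k with ⟨h1, h2⟩ | ⟨h1, h2⟩ <;> omega

theorem row_of_edge {x j : ℤ} (h : x ∈ bd (row S j)) : j ∈ rows S := by
  rw [mem_rows]
  rw [mem_bd] at h
  rcases h with ⟨h, -⟩ | ⟨h, -⟩
  · exact ⟨_, h⟩
  · exact ⟨_, h⟩

theorem col_of_edge {i y : ℤ} (h : y ∈ bd (col S i)) : i ∈ cols S := by
  rw [mem_cols]
  rw [mem_bd] at h
  rcases h with ⟨h, -⟩ | ⟨h, -⟩
  · exact ⟨_, h⟩
  · exact ⟨_, h⟩

theorem exists_bd {T : Finset ℤ} (hT : T.Nonempty) : ∃ x, x ∈ bd T := by
  have := two_le_bd hT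
  obtain ⟨x, hx⟩ := Finset.card_pos.1 (by omega : 0 < (bd T).card)
  exact ⟨x, hx⟩

/-- The nonempty rows are consecutive. -/
theorem rows_conn (hm : 1 ≤ m) (h : Encloses m v S) {j1 j2 j : ℤ} (h1 : j1 ∈ rows S)
    (h2 : j2 ∈ rows S) (h3 : j1 ≤ j) (h4 : j ≤ j2) : j ∈ rows S := by
  obtain ⟨x1, hx1⟩ := exists_bd (mem_rows.1 h1)
  obtain ⟨x2, hx2⟩ := exists_bd (mem_rows.1 h2)
  rw [mem_bd_row, h.ver] at hx1 hx2
  have e1 : ∃ k, (v k).2 ≤ j := by
    obtain ⟨k, hk | hk⟩ := hx1
    · exact ⟨k, by rw [hk.1]; exact h3⟩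
    · exact ⟨k + 1, by rw [hk.2]; exact h3⟩
  have e2 : ∃ k, j + 1 ≤ (v k).2 := by
    obtain ⟨k, hk | hk⟩ := hx2
    · exact ⟨k + 1, by rw [hk.2]; simpa using h4⟩
    · exact ⟨k, by rw [hk.1]; simpa using h4⟩
  obtain ⟨k1, hk1⟩ := e1
  obtain ⟨k2, hk2⟩ := e2
  obtain ⟨k, hk, hk'⟩ := crossing hm (fun k => (v k).2) j (step_snd h) hk1 hk2
  have h5 : (v (k + 1)).1 = (v k).1 := by
    rcases h.adj k with ⟨h6, h7⟩ | ⟨h6, h7⟩
    · omega
    · exact h6.symm
  have h6 : Uses v ((v k).1, j) ((v k).1, j + 1) := by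
    refine ⟨k, Or.inl ⟨?_, ?_⟩⟩
    · exact Prod.ext rfl hk
    · exact Prod.ext h5 hk'
  rw [← h.ver, ← mem_bd_row] at h6
  exact row_of_edge h6

theorem cols_conn (hm : 1 ≤ m) (h : Encloses m v S) {j1 j2 j : ℤ} (h1 : j1 ∈ cols S)
    (h2 : j2 ∈ cols S) (h3 : j1 ≤ j) (h4 : j ≤ j2) : j ∈ cols S := by
  obtain ⟨x1, hx1⟩ := exists_bd (mem_cols.1 h1)
  obtain ⟨x2, hx2⟩ := exists_bd (mem_cols.1 h2)
  rw [mem_bd_col, h.hor] at hx1 hx2
  have e1 : ∃ k, (v k).1 ≤ j := by
    obtain ⟨k, hk | hk⟩ := hx1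
    · exact ⟨k, by rw [hk.1]; exact h3⟩
    · exact ⟨k + 1, by rw [hk.2]; exact h3⟩
  have e2 : ∃ k, j + 1 ≤ (v k).1 := by
    obtain ⟨k, hk | hk⟩ := hx2
    · exact ⟨k + 1, by rw [hk.2]; simpa using h4⟩
    · exact ⟨k, by rw [hk.1]; simpa using h4⟩
  obtain ⟨k1, hk1⟩ := e1
  obtain ⟨k2, hk2⟩ := e2
  obtain ⟨k, hk, hk'⟩ := crossing hm (fun k => (v k).1) j (step_fst h) hk1 hk2
  have h5 : (v (k + 1)).2 = (v k).2 := by
    rcases h.adj k with ⟨h6, h7⟩ | ⟨h6, h7⟩
    · exact h6.symm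
    · omega
  have h6 : Uses v (j, (v k).2) (j + 1, (v k).2) := by
    refine ⟨k, Or.inl ⟨?_, ?_⟩⟩
    · exact Prod.ext hk rfl
    · exact Prod.ext hk' h5
  rw [← h.hor, ← mem_bd_col] at h6
  exact col_of_edge h6

/-- A finite nonempty order connected set of nonnegative integers containing `0` is an initial
segment. -/
theorem eq_Ico {T : Finset ℤ} (h0 : (0 : ℤ) ∈ T) (hn : ∀ x ∈ T, 0 ≤ x)
    (hc : ∀ a ∈ T, ∀ b ∈ T, ∀ x, a ≤ x → x ≤ b → x ∈ T) : T = Finset.Ico 0 (T.card : ℤ) := by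
  have hT : T.Nonempty := ⟨0, h0⟩
  have h1 : T = Finset.Ico 0 (T.max' hT + 1) := by
    ext x
    rw [Finset.mem_Ico]
    constructor
    · intro hx
      exact ⟨hn x hx, by have := T.le_max' _ hx; omega⟩
    · rintro ⟨h2, h3⟩
      exact hc 0 h0 _ (T.max'_mem hT) x h2 (by omega)
  have h2 : (T.card : ℤ) = T.max' hT + 1 := by
    have h3 : T.card = (Finset.Ico 0 (T.max' hT + 1)).card := by rw [← h1]
    rw [h3, Int.card_Ico]
    have := hn _ (T.max'_mem hT)
    omega
  rw [h2]; exact h1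

/-- Height and width of the bounding box. -/
theorem rows_eq (h : S ∈ Wide m) : rows S = Finset.Ico 0 ((rows S).card : ℤ) := by
  obtain ⟨hN, -, hr, -⟩ := h
  apply eq_Ico
  · obtain ⟨c, hc, h0⟩ := hN.2.2
    rw [rows, Finset.mem_image]
    exact ⟨c, hc, h0⟩
  · intro x hx
    rw [rows, Finset.mem_image] at hx
    obtain ⟨c, hc, rfl⟩ := hx
    exact (hN.1 c hc).2
  · exact hr

theorem cols_eq (h : S ∈ Wide m) : cols S = Finset.Ico 0 ((cols S).card : ℤ) := by
  obtain ⟨hN, -, -, hc⟩ := h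
  apply eq_Ico
  · obtain ⟨c, hc, h0⟩ := hN.2.1
    rw [cols, Finset.mem_image]
    exact ⟨c, hc, h0⟩
  · intro x hx
    rw [cols, Finset.mem_image] at hx
    obtain ⟨c, hc, rfl⟩ := hx
    exact (hN.1 c hc).1
  · exact hc

theorem polygons_sub_wide (hm : 1 ≤ m) : polygons m ⊆ Wide m := by
  rintro S ⟨⟨v, hv⟩, hN⟩
  exact ⟨hN, perimeter_le hm hv, fun a ha b hb x h1 h2 => rows_conn hm hv ha hb h1 h2,
    fun a ha b hb x h1 h2 => cols_conn hm hv ha hb h1 h2⟩

end Pool.Agent.Q291.SAP
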