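import Pool.Agent.Q291.SAP.A

/-!
# Sets of squares of nearly maximal area have few corners
-/

set_option autoImplicit false

namespace Pool.Agent.Q291.SAP

/-- The data of a polygon used in the counting: bounding box `a × b` and perimeter at most `2m`. -/
structure Shape (m a b : ℕ) (S : Finset Pt) : Prop where
  rows : rows S = Finset.Ico 0 (b : ℤ)
  cols : cols S = Finset.Ico 0 (a : ℤ)
  per : ∑ j ∈ Finset.Ico 0 (b : ℤ), (bd (row S j)).card +
    ∑ i ∈ Finset.Ico 0 (a : ℤ), (bd (col S i)).card ≤ 2 * m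
  a_pos : 1 ≤ a
  b_pos : 1 ≤ b

theorem exists_shape {m : ℕ} {S : Finset Pt} (h : S ∈ Wide m) : ∃ a b, Shape m a b S := by
  have h1 := rows_eq h
  have h2 := cols_eq h
  refine ⟨(cols S).card, (rows S).card, h1, h2, ?_, ?_, ?_⟩
  · rw [← h1, ← h2]; exact h.2.1
  · rw [Nat.one_le_iff_ne_zero, Finset.card_ne_zero]
    obtain ⟨c, hc, -⟩ := h.1.2.1
    exact ⟨c.1, Finset.mem_image_of_mem _ hc⟩
  · rw [Nat.one_le_iff_ne_zero, Finset.card_ne_zero]
    obtain ⟨c, hc, -⟩ := h.1.2.1
    exact ⟨c.2, Finset.mem_image_of_mem _ hc⟩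

variable {m a b : ℕ} {S : Finset Pt}

theorem Shape.mem_box (h : Shape m a b S) {c : Pt} (hc : c ∈ S) :
    (0 ≤ c.1 ∧ c.1 < a) ∧ (0 ≤ c.2 ∧ c.2 < b) := by
  have h1 : c.1 ∈ SAP.cols S := Finset.mem_image_of_mem _ hc
  have h2 : c.2 ∈ SAP.rows S := Finset.mem_image_of_mem _ hc
  rw [h.cols, Finset.mem_Ico] at h1
  rw [h.rows, Finset.mem_Ico] at h2
  exact ⟨h1, h2⟩

theorem Shape.two_le_row (h : Shape m a b S) {j : ℤ} (hj : j ∈ Finset.Ico 0 (b : ℤ)) :
    2 ≤ (bd (row S j)).card := by
  rw [← h.rows, mem_rows] at hj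
  exact two_le_bd hj

theorem Shape.two_le_col (h : Shape m a b S) {i : ℤ} (hi : i ∈ Finset.Ico 0 (a : ℤ)) :
    2 ≤ (bd (col S i)).card := by
  rw [← h.cols, mem_cols] at hi
  exact two_le_bd hi

/-- Excess of the horizontal and of the vertical perimeter. -/
theorem Shape.excess (h : Shape m a b S) :
    ∑ j ∈ Finset.Ico 0 (b : ℤ), ((bd (row S j)).card - 2) +
    ∑ i ∈ Finset.Ico 0 (a : ℤ), ((bd (col S i)).card - 2) + 2 * (a + b) ≤ 2 * m := by
  have h1 : ∑ j ∈ Finset.Ico 0 (b : ℤ), ((bd (row S j)).card - 2) + 2 * b =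
      ∑ j ∈ Finset.Ico 0 (b : ℤ), (bd (row S j)).card := by
    have : 2 * b = ∑ j ∈ Finset.Ico 0 (b : ℤ), 2 := by
      rw [Finset.sum_const, Int.card_Ico]; simp; ring
    rw [this, ← Finset.sum_add_distrib]
    exact Finset.sum_congr rfl fun j hj => Nat.sub_add_cancel (h.two_le_row hj)
  have h2 : ∑ j ∈ Finset.Ico 0 (a : ℤ), ((bd (col S j)).card - 2) + 2 * a =
      ∑ j ∈ Finset.Ico 0 (a : ℤ), (bd (col S j)).card := by
    have : 2 * a = ∑ j ∈ Finset.Ico 0 (a : ℤ), 2 := by
      rw [Finset.sum_const, Int.card_Ico]; simp; ring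
    rw [this, ← Finset.sum_add_distrib]
    exact Finset.sum_congr rfl fun j hj => Nat.sub_add_cancel (h.two_le_col hj)
  have := h.per
  omega

theorem Shape.add_le (h : Shape m a b S) : a + b ≤ m := by
  have := h.excess
  omega

theorem Shape.col_sub (h : Shape m a b S) (i : ℤ) : col S i ⊆ Finset.Ico 0 (b : ℤ) := by
  intro y hy
  rw [mem_col] at hy
  exact Finset.mem_Ico.2 (h.mem_box hy).2

theorem Shape.row_sub (h : Shape m a b S) (j : ℤ) : row S j ⊆ Finset.Ico 0 (a : ℤ) := by
  intro y hy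
  rw [mem_row] at hy
  exact Finset.mem_Ico.2 (h.mem_box hy).1

theorem Shape.col_le (h : Shape m a b S) (i : ℤ) : (col S i).card ≤ b := by
  have := Finset.card_le_card (h.col_sub i)
  simpa using this

theorem Shape.row_le (h : Shape m a b S) (i : ℤ) : (row S i).card ≤ a := by
  have := Finset.card_le_card (h.row_sub i)
  simpa using this

theorem Shape.card_eq (h : Shape m a b S) :
    S.card = ∑ i ∈ Finset.Ico 0 (a : ℤ), (col S i).card := by
  rw [Finset.card_eq_sum_card_fiberwise (f := Prod.fst) (t := Finset.Ico 0 (a : ℤ))]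
  · refine Finset.sum_congr rfl fun i _ => ?_
    rw [col, Finset.card_image_of_injOn]
    intro x hx y hy hxy
    simp only [Finset.coe_filter, Set.mem_setOf_eq] at hx hy
    exact Prod.ext (hx.2.trans hy.2.symm) hxy
  · intro c hc
    exact Finset.mem_coe.2 (Finset.mem_Ico.2 (h.mem_box hc).1)

theorem Shape.card_eq' (h : Shape m a b S) :
    S.card = ∑ i ∈ Finset.Ico 0 (b : ℤ), (row S i).card := by
  rw [Finset.card_eq_sum_card_fiberwise (f := Prod.snd) (t := Finset.Ico 0 (b : ℤ))]
  · refine Finset.sum_congr rfl fun i _ => ?_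
    rw [row, Finset.card_image_of_injOn]
    intro x hx y hy hxy
    simp only [Finset.coe_filter, Set.mem_setOf_eq] at hx hy
    exact Prod.ext hxy (hx.2.trans hy.2.symm)
  · intro c hc
    exact Finset.mem_coe.2 (Finset.mem_Ico.2 (h.mem_box hc).2)

theorem Shape.missing (h : Shape m a b S) :
    ∑ i ∈ Finset.Ico 0 (a : ℤ), (b - (col S i).card) + S.card = a * b := by
  rw [h.card_eq, ← Finset.sum_add_distrib]
  have : a * b = ∑ i ∈ Finset.Ico 0 (a : ℤ), b := by
    rw [Finset.sum_const, Int.card_Ico]; simp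
  rw [this]
  exact Finset.sum_congr rfl fun i _ => Nat.sub_add_cancel (h.col_le i)

theorem Shape.missing' (h : Shape m a b S) :
    ∑ i ∈ Finset.Ico 0 (b : ℤ), (a - (row S i).card) + S.card = a * b := by
  rw [h.card_eq', ← Finset.sum_add_distrib]
  have : a * b = ∑ i ∈ Finset.Ico 0 (b : ℤ), a := by
    rw [Finset.sum_const, Int.card_Ico]; simp; ring
  rw [this]
  exact Finset.sum_congr rfl fun i _ => Nat.sub_add_cancel (h.row_le i)

/-! ### Corners -/

open Classical in
/-- Parity at a lattice point. -/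
noncomputable def par (S : Finset Pt) (p : Pt) : ℕ :=
  (if (p.1 - 1, p.2 - 1) ∈ S then 1 else 0) + (if (p.1, p.2 - 1) ∈ S then 1 else 0) +
  (if (p.1 - 1, p.2) ∈ S then 1 else 0) + (if (p.1, p.2) ∈ S then 1 else 0)

open Classical in
/-- The corners. -/
noncomputable def corners (m : ℕ) (S : Finset Pt) : Finset Pt :=
  ((Finset.Icc 0 (m : ℤ)) ×ˢ (Finset.Icc 0 (m : ℤ))).filter (fun p => Odd (par S p))

theorem corners_inj {S S' : Finset Pt} (h1 : ∀ c ∈ S, (0 ≤ c.1 ∧ c.1 < m) ∧ (0 ≤ c.2 ∧ c.2 < m))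
    (h2 : ∀ c ∈ S', (0 ≤ c.1 ∧ c.1 < m) ∧ (0 ≤ c.2 ∧ c.2 < m))
    (h : corners m S = corners m S') : S = S' := by
  classical
  by_contra hne
  have h3 : (symmDiff S S').Nonempty := by
    rw [Finset.nonempty_iff_ne_empty]
    intro h4
    apply hne
    exact symmDiff_eq_bot.1 h4
  obtain ⟨c, hc, hmin⟩ := Finset.exists_min_image (symmDiff S S') (fun c => c.1 + c.2) h3
  have h4 : ∀ d : Pt, d.1 + d.2 < c.1 + c.2 → (d ∈ S ↔ d ∈ S') := by
    intro d hd
    by_contra h5
    have h6 : d ∈ symmDiff S S' := by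
      rw [Finset.mem_symmDiff]
      tauto
    have := hmin d h6
    linarith
  have h5 : (c ∈ S ∧ c ∉ S') ∨ (c ∈ S' ∧ c ∉ S) := Finset.mem_symmDiff.1 hc
  have h6 : (0 ≤ c.1 ∧ c.1 < m) ∧ (0 ≤ c.2 ∧ c.2 < m) := by
    rcases h5 with h5 | h5
    · exact h1 c h5.1
    · exact h2 c h5.1
  have h7 : c ∈ ((Finset.Icc 0 (m : ℤ)) ×ˢ (Finset.Icc 0 (m : ℤ))) := by
    rw [Finset.mem_product, Finset.mem_Icc, Finset.mem_Icc]
    omega
  have h8 : (Odd (par S c) ↔ Odd (par S' c)) := by
    have h9 : c ∈ corners m S ↔ c ∈ corners m S' := by rw [h]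
    rw [corners, corners, Finset.mem_filter, Finset.mem_filter] at h9
    tauto
  have g1 := h4 (c.1 - 1, c.2 - 1) (by simp only; omega)
  have g2 := h4 (c.1, c.2 - 1) (by simp only; omega)
  have g3 := h4 (c.1 - 1, c.2) (by simp only; omega)
  unfold par at h8
  simp only [g1, g2, g3] at h8
  rcases h5 with h5 | h5
  · have e1 : (c.1, c.2) ∈ S := h5.1
    have e2 : (c.1, c.2) ∉ S' := h5.2
    rw [if_pos e1, if_neg e2, add_zero] at h8
    rw [Nat.odd_add_one] at h8
    tauto
  · have e1 : (c.1, c.2) ∈ S' := h5.1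
    have e2 : (c.1, c.2) ∉ S := h5.2
    rw [if_pos e1, if_neg e2, add_zero] at h8
    rw [Nat.odd_add_one] at h8
    tauto

theorem exists_hor {p : Pt} (h : Odd (par S p)) :
    p.2 ∈ bd (col S (p.1 - 1)) ∨ p.2 ∈ bd (col S p.1) := by
  classical
  by_contra hcon
  rw [not_or, mem_bd_col, mem_bd_col] at hcon
  obtain ⟨h1, h2⟩ := hcon
  rw [xor_iff_not_iff, not_not] at h1 h2
  unfold par at h
  simp only [h1, h2] at h
  revert h
  by_cases e1 : (p.1 - 1, p.2) ∈ S <;> by_cases e2 : (p.1, p.2) ∈ S <;> simp [e1, e2] <;> decide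

theorem exists_ver {p : Pt} (h : Odd (par S p)) :
    p.1 ∈ bd (row S (p.2 - 1)) ∨ p.1 ∈ bd (row S p.2) := by
  classical
  by_contra hcon
  rw [not_or, mem_bd_row, mem_bd_row] at hcon
  obtain ⟨h1, h2⟩ := hcon
  rw [xor_iff_not_iff, not_not] at h1 h2
  unfold par at h
  simp only [h1, h2] at h
  revert h
  by_cases e1 : (p.1, p.2 - 1) ∈ S <;> by_cases e2 : (p.1, p.2) ∈ S <;> simp [e1, e2] <;> decide

open Classical in
/-- Bad columns. -/
noncomputable def badC (a b D : ℕ) (S : Finset Pt) : Finset ℤ :=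
  (Finset.Ico 0 (a : ℤ)).filter (fun i => 2 < (bd (col S i)).card ∨ D ≤ b - (col S i).card)

/-- Rows close to the top or to the bottom. -/
noncomputable def nearR (b D : ℕ) : Finset ℤ :=
  (Finset.Ico 0 (b : ℤ)).filter (fun j => j < D ∨ (b : ℤ) - D ≤ j)

theorem Shape.corners_sub (h : Shape m a b S) (D : ℕ) :
    corners m S ⊆ ((badC a b D S).biUnion (fun i => ({i, i + 1} : Finset ℤ) ×ˢ bd (col S i))) ∪
      ((nearR b D).biUnion (fun j => bd (row S j) ×ˢ ({j, j + 1} : Finset ℤ))) := by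
  classical
  intro p hp
  rw [corners, Finset.mem_filter] at hp
  have hodd := hp.2
  have key : ∀ i, (p.1 = i ∨ p.1 = i + 1) → p.2 ∈ bd (col S i) →
      p ∈ ((badC a b D S).biUnion (fun i => ({i, i + 1} : Finset ℤ) ×ˢ bd (col S i))) ∪
      ((nearR b D).biUnion (fun j => bd (row S j) ×ˢ ({j, j + 1} : Finset ℤ))) := by
    intro i hi hpi
    have hi2 : i ∈ Finset.Ico 0 (a : ℤ) := by
      rw [← h.cols]; exact col_of_edge hpi
    rw [Finset.mem_union]
    by_cases hb : i ∈ badC a b D S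
    · left
      rw [Finset.mem_biUnion]
      refine ⟨i, hb, ?_⟩
      rw [Finset.mem_product]
      refine ⟨?_, hpi⟩
      rw [Finset.mem_insert, Finset.mem_singleton]
      exact hi
    · right
      rw [badC, Finset.mem_filter, not_and] at hb
      have hb2 := hb hi2
      rw [not_or, not_lt, not_le] at hb2
      obtain ⟨hb3, hb4⟩ := hb2
      have hsub := h.col_sub i
      have hy : p.2 < D ∨ (b : ℤ) - D < p.2 := by
        rw [mem_bd] at hpi
        rcases hpi with ⟨g1, g2⟩ | ⟨g1, g2⟩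
        · right
          have g3 : col S i ⊆ Finset.Ico 0 p.2 := by
            intro z hz
            rw [Finset.mem_Ico]
            refine ⟨(Finset.mem_Ico.1 (hsub hz)).1, ?_⟩
            by_contra hcon
            exact g2 (ordConn_of_bd hb3 g1 hz (by omega) (by omega))
          have g4 := Finset.card_le_card g3
          rw [Int.card_Ico] at g4
          have g5 := (Finset.mem_Ico.1 (hsub g1)).1
          omega
        · left
          have g3 : col S i ⊆ Finset.Ico p.2 b := by
            intro z hz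
            rw [Finset.mem_Ico]
            refine ⟨?_, (Finset.mem_Ico.1 (hsub hz)).2⟩
            by_contra hcon
            exact g2 (ordConn_of_bd hb3 hz g1 (by omega) (by omega))
          have g4 := Finset.card_le_card g3
          rw [Int.card_Ico] at g4
          have g5 := (Finset.mem_Ico.1 (hsub g1)).2
          omega
      rw [Finset.mem_biUnion]
      rcases exists_ver hodd with e | e
      · refine ⟨p.2 - 1, ?_, ?_⟩
        · rw [nearR, Finset.mem_filter, ← h.rows]
          exact ⟨row_of_edge e, by omega⟩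
        · rw [Finset.mem_product]
          refine ⟨e, ?_⟩
          rw [Finset.mem_insert, Finset.mem_singleton]
          right; ring
      · refine ⟨p.2, ?_, ?_⟩
        · rw [nearR, Finset.mem_filter, ← h.rows]
          exact ⟨row_of_edge e, by omega⟩
        · rw [Finset.mem_product]
          refine ⟨e, ?_⟩
          rw [Finset.mem_insert]
          left; rfl
  rcases exists_hor hodd with e | e
  · exact key _ (Or.inr (by ring)) e
  · exact key _ (Or.inl rfl) e

theorem card_nearR (b D : ℕ) : (nearR b D).card ≤ 2 * D := by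
  have h1 : nearR b D ⊆ Finset.Ico 0 (D : ℤ) ∪ Finset.Ico ((b : ℤ) - D) b := by
    intro j hj
    rw [nearR, Finset.mem_filter, Finset.mem_Ico] at hj
    rw [Finset.mem_union, Finset.mem_Ico, Finset.mem_Ico]
    omega
  refine (Finset.card_le_card h1).trans ((Finset.card_union_le _ _).trans ?_)
  rw [Int.card_Ico, Int.card_Ico]
  omega

theorem Shape.card_badC (h : Shape m a b S) {D : ℕ} (hD : 1 ≤ D) :
    (badC a b D S).card ≤ ∑ i ∈ Finset.Ico 0 (a : ℤ), ((bd (col S i)).card - 2) +
      (a * b - S.card) / D := by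
  classical
  have h1 : badC a b D S ⊆
      (Finset.Ico 0 (a : ℤ)).filter (fun i => 2 < (bd (col S i)).card) ∪
      (Finset.Ico 0 (a : ℤ)).filter (fun i => D ≤ b - (col S i).card) := by
    rw [badC, Finset.filter_or]
  refine (Finset.card_le_card h1).trans ((Finset.card_union_le _ _).trans ?_)
  refine Nat.add_le_add ?_ ?_
  · calc ((Finset.Ico 0 (a : ℤ)).filter (fun i => 2 < (bd (col S i)).card)).card
        = ∑ i ∈ (Finset.Ico 0 (a : ℤ)).filter (fun i => 2 < (bd (col S i)).card), 1 := by simp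
      _ ≤ ∑ i ∈ (Finset.Ico 0 (a : ℤ)).filter (fun i => 2 < (bd (col S i)).card),
          ((bd (col S i)).card - 2) := by
          refine Finset.sum_le_sum fun i hi => ?_
          have := (Finset.mem_filter.1 hi).2
          omega
      _ ≤ _ := Finset.sum_le_sum_of_subset (Finset.filter_subset _ _)
  · rw [Nat.le_div_iff_mul_le (by omega)]
    have h2 := h.missing
    calc ((Finset.Ico 0 (a : ℤ)).filter (fun i => D ≤ b - (col S i).card)).card * D
        = ∑ i ∈ (Finset.Ico 0 (a : ℤ)).filter (fun i => D ≤ b - (col S i).card), D := by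
          rw [Finset.sum_const, smul_eq_mul]
      _ ≤ ∑ i ∈ (Finset.Ico 0 (a : ℤ)).filter (fun i => D ≤ b - (col S i).card),
          (b - (col S i).card) := Finset.sum_le_sum fun i hi => (Finset.mem_filter.1 hi).2
      _ ≤ ∑ i ∈ Finset.Ico 0 (a : ℤ), (b - (col S i).card) :=
          Finset.sum_le_sum_of_subset (Finset.filter_subset _ _)
      _ = a * b - S.card := by omega

theorem card_biUnion_le_two {ι : Type*} [DecidableEq ι] (I : Finset ι) (g : ι → Finset Pt)
    (n : ι → ℕ) (hg : ∀ i ∈ I, (g i).card ≤ 2 * n i) :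
    (I.biUnion g).card ≤ 2 * ∑ i ∈ I, n i := by
  rw [Finset.mul_sum]
  exact Finset.card_biUnion_le.trans (Finset.sum_le_sum hg)

theorem Shape.card_corners (h : Shape m a b S) {D : ℕ} (hD : 1 ≤ D) :
    (corners m S).card ≤ 12 * (m - (a + b)) + 4 * ((a * b - S.card) / D) + 8 * D := by
  classical
  have h1 := Finset.card_le_card (h.corners_sub D)
  have h2 := Finset.card_union_le
    ((badC a b D S).biUnion (fun i => ({i, i + 1} : Finset ℤ) ×ˢ bd (col S i)))
    ((nearR b D).biUnion (fun j => bd (row S j) ×ˢ ({j, j + 1} : Finset ℤ)))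
  have h3 : ((badC a b D S).biUnion (fun i => ({i, i + 1} : Finset ℤ) ×ˢ bd (col S i))).card ≤
      2 * ∑ i ∈ badC a b D S, (bd (col S i)).card := by
    apply card_biUnion_le_two
    intro i _
    rw [Finset.card_product]
    exact Nat.mul_le_mul_right _ Finset.card_le_two
  have h4 : ((nearR b D).biUnion (fun j => bd (row S j) ×ˢ ({j, j + 1} : Finset ℤ))).card ≤
      2 * ∑ j ∈ nearR b D, (bd (row S j)).card := by
    apply card_biUnion_le_two
    intro i _
    rw [Finset.card_product, mul_comm]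
    exact Nat.mul_le_mul_right _ Finset.card_le_two
  have h5 : ∑ i ∈ badC a b D S, (bd (col S i)).card ≤
      2 * (badC a b D S).card + ∑ i ∈ Finset.Ico 0 (a : ℤ), ((bd (col S i)).card - 2) := by
    calc ∑ i ∈ badC a b D S, (bd (col S i)).card
        ≤ ∑ i ∈ badC a b D S, (2 + ((bd (col S i)).card - 2)) :=
          Finset.sum_le_sum fun i _ => by omega
      _ = 2 * (badC a b D S).card + ∑ i ∈ badC a b D S, ((bd (col S i)).card - 2) := by
          rw [Finset.sum_add_distrib, Finset.sum_const, smul_eq_mul, mul_comm]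
      _ ≤ _ := Nat.add_le_add_left
          (Finset.sum_le_sum_of_subset (Finset.filter_subset _ _)) _
  have h6 : ∑ j ∈ nearR b D, (bd (row S j)).card ≤
      2 * (nearR b D).card + ∑ j ∈ Finset.Ico 0 (b : ℤ), ((bd (row S j)).card - 2) := by
    calc ∑ i ∈ nearR b D, (bd (row S i)).card
        ≤ ∑ i ∈ nearR b D, (2 + ((bd (row S i)).card - 2)) :=
          Finset.sum_le_sum fun i _ => by omega
      _ = 2 * (nearR b D).card + ∑ i ∈ nearR b D, ((bd (row S i)).card - 2) := by
          rw [Finset.sum_add_distrib, Finset.sum_const, smul_eq_mul, mul_comm]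
      _ ≤ _ := Nat.add_le_add_left
          (Finset.sum_le_sum_of_subset (Finset.filter_subset _ _)) _
  have h7 := h.card_badC hD
  have h8 := card_nearR b D
  have h9 := h.excess
  have h10 := h.add_le
  omega

/-- The number of sets with at most `T` elements. -/
theorem card_small_subsets {α : Type*} [DecidableEq α] (U : Finset α) (T : ℕ) :
    (U.powerset.filter (fun A => A.card ≤ T)).card ≤ (U.card + 1) ^ T := by
  induction T with
  | zero =>
    rw [pow_zero, Finset.card_le_one]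
    intro x hx y hy
    rw [Finset.mem_filter, Nat.le_zero, Finset.card_eq_zero] at hx hy
    rw [hx.2, hy.2]
  | succ T ih =>
    have h1 : U.powerset.filter (fun A => A.card ≤ T + 1) ⊆
        U.powerset.filter (fun A => A.card ≤ T) ∪ U.powersetCard (T + 1) := by
      intro A hA
      rw [Finset.mem_filter, Finset.mem_powerset] at hA
      rw [Finset.mem_union, Finset.mem_filter, Finset.mem_powerset, Finset.mem_powersetCard]
      rcases Nat.lt_or_ge T A.card with h2 | h2
      · right; exact ⟨hA.1, by omega⟩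
      · left; exact ⟨hA.1, h2⟩
    refine (Finset.card_le_card h1).trans ((Finset.card_union_le _ _).trans ?_)
    rw [Finset.card_powersetCard]
    have h2 : U.card.choose (T + 1) ≤ U.card ^ (T + 1) := Nat.choose_le_pow _ _
    have h3 : U.card ^ T ≤ (U.card + 1) ^ T := Nat.pow_le_pow_left (by omega) _
    calc _ ≤ (U.card + 1) ^ T + U.card ^ (T + 1) := Nat.add_le_add ih h2
      _ = (U.card + 1) ^ T + U.card ^ T * U.card := by rw [pow_succ]
      _ ≤ (U.card + 1) ^ T + (U.card + 1) ^ T * U.card :=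
          Nat.add_le_add_left (Nat.mul_le_mul_right _ h3) _
      _ = (U.card + 1) ^ (T + 1) := by ring

theorem wide_sub_box {S : Finset Pt} (h : S ∈ Wide m) :
    ∀ c ∈ S, (0 ≤ c.1 ∧ c.1 < m) ∧ (0 ≤ c.2 ∧ c.2 < m) := by
  intro c hc
  obtain ⟨a, b, hs⟩ := exists_shape h
  have h1 := hs.mem_box hc
  have h2 := hs.add_le
  omega

theorem wide_finite (m : ℕ) : (Wide m).Finite := by
  apply Set.Finite.subset
    (Finset.finite_toSet (((Finset.Ico 0 (m : ℤ)) ×ˢ (Finset.Ico 0 (m : ℤ))).powerset))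
  intro S hS
  rw [Finset.mem_coe, Finset.mem_powerset]
  intro c hc
  rw [Finset.mem_product, Finset.mem_Ico, Finset.mem_Ico]
  exact wide_sub_box hS c hc

/-- The area is at most `m^2/4`, and the bounding box is almost a square with small excess if the
area is nearly maximal. -/
theorem Shape.area (h : Shape m a b S) : S.card ≤ a * b ∧ a * b ≤ m ^ 2 / 4 := by
  have h1 := h.missing
  have h2 := h.add_le
  refine ⟨by omega, ?_⟩
  rw [Nat.le_div_iff_mul_le (by norm_num)]
  have h3 : (a + b) ^ 2 ≤ m ^ 2 := Nat.pow_le_pow_left h2 2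
  nlinarith [sq_nonneg ((a : ℤ) - b), Nat.zero_le a, Nat.zero_le b, four_mul_le_sq_add a b]

theorem Shape.excess_mul (h : Shape m a b S) {k : ℕ} (hk : m ^ 2 / 4 ≤ S.card + k) :
    (m - (a + b)) * m ≤ 4 * k + 1 := by
  have h1 := h.area
  have h2 := h.add_le
  obtain ⟨J, hJ⟩ : ∃ J, m = a + b + J := ⟨m - (a + b), by omega⟩
  have h3 : m - (a + b) = J := by omega
  rw [h3]
  have h4 : m ^ 2 ≤ 4 * (m ^ 2 / 4) + 1 := by
    have h5 : m ^ 2 % 4 ≤ 1 := by
      rcases Nat.even_or_odd m with ⟨t, ht⟩ | ⟨t, ht⟩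
      · have : m ^ 2 = 4 * (t ^ 2) := by rw [ht]; ring
        omega
      · have : m ^ 2 = 4 * (t ^ 2 + t) + 1 := by rw [ht]; ring
        omega
    omega
  have h5 : 4 * (a * b) ≤ (a + b) ^ 2 := by
    have := four_mul_le_sq_add a b
    linarith
  have h6 : m ^ 2 ≤ 4 * (a * b) + 4 * k + 1 := by omega
  have h7 : m ^ 2 = (a + b) ^ 2 + J * (a + b) + J * m := by rw [hJ]; ring
  nlinarith [Nat.zero_le (J * (a + b))]

/-- The number of polygons of deficit at most `k`. -/
theorem card_deficit (hm : 1 ≤ m) (k : ℕ) (F : Finset (Finset Pt))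
    (hF : ∀ S ∈ F, S ∈ Wide m ∧ m ^ 2 / 4 ≤ S.card + k) :
    F.card ≤ ((m + 1) ^ 2 + 1) ^ (12 * ((4 * k + 1) / m) + 12 * Nat.sqrt k + 8) := by
  classical
  have hbox : (((Finset.Icc 0 (m : ℤ)) ×ˢ (Finset.Icc 0 (m : ℤ)))).card = (m + 1) ^ 2 := by
    rw [Finset.card_product, Int.card_Icc]
    have : ((m : ℤ) + 1 - 0).toNat = m + 1 := by omega
    rw [this, sq]
  have h1 := card_small_subsets ((Finset.Icc 0 (m : ℤ)) ×ˢ (Finset.Icc 0 (m : ℤ)))
    (12 * ((4 * k + 1) / m) + 12 * Nat.sqrt k + 8)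
  rw [hbox] at h1
  refine le_trans ?_ h1
  refine Finset.card_le_card_of_injOn (corners m) ?_ ?_
  · intro S hS
    obtain ⟨h2, h3⟩ := hF S hS
    obtain ⟨a, b, hs⟩ := exists_shape h2
    rw [Finset.mem_coe, Finset.mem_filter, Finset.mem_powerset]
    refine ⟨Finset.filter_subset _ _, ?_⟩
    have h4 := hs.card_corners (D := Nat.sqrt k + 1) (by omega)
    have h5 : m - (a + b) ≤ (4 * k + 1) / m := by
      rw [Nat.le_div_iff_mul_le (by omega)]
      exact hs.excess_mul h3
    have h6 : (a * b - S.card) / (Nat.sqrt k + 1) ≤ Nat.sqrt k := by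
      have h7 := hs.area
      have h8 : a * b - S.card ≤ k := by omega
      have h9 : (a * b - S.card) / (Nat.sqrt k + 1) < Nat.sqrt k + 1 := by
        rw [Nat.div_lt_iff_lt_mul (by omega)]
        exact lt_of_le_of_lt h8 (Nat.lt_succ_sqrt k)
      omega
    omega
  · intro S hS S' hS' h
    rw [Finset.mem_coe] at hS hS'
    exact corners_inj (wide_sub_box (hF S hS).1) (wide_sub_box (hF S' hS').1) h

end Pool.Agent.Q291.SAP
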