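import Pool.Agent.Q291.SAP.B

/-!
# Polygons of nearly maximal area are rectangles without four Young diagrams at the corners
-/

set_option autoImplicit false

namespace Pool.Agent.Q291.SAP

/-- Coordinate counted from the left (`false`) or from the right (`true`) end of `[0,a)`. -/
def X (a : ℕ) (σ : Bool) (i : ℕ) : ℤ := if σ then (a : ℤ) - 1 - i else i

/-- Square number `p` counted from the corner `c` of the rectangle `a × b`. -/
def emb (a b : ℕ) (c : Bool × Bool) (p : ℕ × ℕ) : Pt := (X a c.1 p.1, X b c.2 p.2)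

/-- The rectangle. -/
noncomputable def box (a b : ℕ) : Finset Pt := Finset.Ico 0 (a : ℤ) ×ˢ Finset.Ico 0 (b : ℤ)

open Classical in
/-- The squares cut off at the four corners. -/
noncomputable def cuts (a b : ℕ) (l : Bool × Bool → YoungDiagram) : Finset Pt :=
  Finset.univ.biUnion (fun c => (l c).cells.image (emb a b c))

open Classical in
/-- The rectangle `a × b` without the Young diagrams `l c` at the four corners. -/
noncomputable def cut (a b : ℕ) (l : Bool × Bool → YoungDiagram) : Finset Pt :=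
  box a b \ cuts a b l

theorem mem_box {a b : ℕ} {c : Pt} :
    c ∈ box a b ↔ (0 ≤ c.1 ∧ c.1 < a) ∧ (0 ≤ c.2 ∧ c.2 < b) := by
  rw [box, Finset.mem_product, Finset.mem_Ico, Finset.mem_Ico]

theorem mem_cuts {a b : ℕ} {l : Bool × Bool → YoungDiagram} {q : Pt} :
    q ∈ cuts a b l ↔ ∃ c p, p ∈ l c ∧ emb a b c p = q := by
  classical
  rw [cuts, Finset.mem_biUnion]
  constructor
  · rintro ⟨c, -, h⟩
    rw [Finset.mem_image] at h
    obtain ⟨p, hp, h⟩ := h
    exact ⟨c, p, hp, h⟩
  · rintro ⟨c, p, hp, h⟩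
    exact ⟨c, Finset.mem_univ _, Finset.mem_image.2 ⟨p, hp, h⟩⟩

theorem mem_cut {a b : ℕ} {l : Bool × Bool → YoungDiagram} {q : Pt} :
    q ∈ cut a b l ↔ q ∈ box a b ∧ ¬ ∃ c p, p ∈ l c ∧ emb a b c p = q := by
  rw [cut, Finset.mem_sdiff, mem_cuts]

/-- The cells of a Young diagram have small coordinates. -/
theorem coord_lt (μ : YoungDiagram) {p : ℕ × ℕ} (hp : p ∈ μ) : p.1 + p.2 < μ.card := by
  classical
  obtain ⟨A, hA⟩ : ∃ A : Finset (ℕ × ℕ), A = (Finset.range (p.1 + 1)).image (fun i => (i, 0)) :=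
    ⟨_, rfl⟩
  obtain ⟨B, hB⟩ : ∃ B : Finset (ℕ × ℕ), B = (Finset.range (p.2 + 1)).image (fun j => (0, j)) :=
    ⟨_, rfl⟩
  have h1 : A ∪ B ⊆ μ.cells := by
    intro q hq
    rw [Finset.mem_union, hA, hB, Finset.mem_image, Finset.mem_image] at hq
    have : q ≤ p := by
      rcases hq with ⟨i, hi, rfl⟩ | ⟨i, hi, rfl⟩
      · rw [Finset.mem_range] at hi
        exact ⟨by simp only; omega, Nat.zero_le _⟩
      · rw [Finset.mem_range] at hi
        exact ⟨Nat.zero_le _, by simp only; omega⟩
    exact μ.isLowerSet this hp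
  have h2 := Finset.card_le_card h1
  have h3 := Finset.card_union_add_card_inter A B
  have h4 : (A ∩ B).card ≤ 1 := by
    rw [Finset.card_le_one]
    intro q hq q' hq'
    rw [hA, hB] at hq hq'
    simp only [Finset.mem_inter, Finset.mem_image] at hq hq'
    obtain ⟨⟨i, -, rfl⟩, ⟨j, -, h5⟩⟩ := hq
    obtain ⟨⟨i', -, rfl⟩, ⟨j', -, h6⟩⟩ := hq'
    have e5 := congrArg Prod.fst h5
    have e6 := congrArg Prod.fst h6
    simp only at e5 e6
    rw [← e5, ← e6]
  have c1 : A.card = p.1 + 1 := by
    rw [hA, Finset.card_image_of_injective, Finset.card_range]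
    intro x y hxy
    simpa using hxy
  have c2 : B.card = p.2 + 1 := by
    rw [hB, Finset.card_image_of_injective, Finset.card_range]
    intro x y hxy
    simpa using hxy
  have c3 : μ.card = μ.cells.card := rfl
  omega

/-- Total number of squares cut off. -/
def total (l : Bool × Bool → YoungDiagram) : ℕ := ∑ c, (l c).card

theorem card_le_total (l : Bool × Bool → YoungDiagram) (c : Bool × Bool) : (l c).card ≤ total l :=
  Finset.single_le_sum (f := fun c => (l c).card) (fun _ _ => Nat.zero_le _) (Finset.mem_univ c)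

theorem X_inj {a : ℕ} {σ σ' : Bool} {i i' : ℕ} (h : X a σ i = X a σ' i') (hi : 2 * i + 1 < a)
    (hi' : 2 * i' + 1 < a) : σ = σ' ∧ i = i' := by
  unfold X at h
  cases σ <;> cases σ' <;> simp at h ⊢ <;> omega

theorem emb_inj {a b : ℕ} {l l' : Bool × Bool → YoungDiagram} (ha : 2 * total l + 1 ≤ a)
    (hb : 2 * total l + 1 ≤ b) (ha' : 2 * total l' + 1 ≤ a)
    (hb' : 2 * total l' + 1 ≤ b) {c c' : Bool × Bool} {p p' : ℕ × ℕ} (hp : p ∈ l c)
    (hp' : p' ∈ l' c') (h : emb a b c p = emb a b c' p') : c = c' ∧ p = p' := by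
  have h1 := coord_lt (l c) hp
  have h2 := coord_lt (l' c') hp'
  have h3 := card_le_total l c
  have h4 := card_le_total l' c'
  rw [emb, emb, Prod.mk.injEq] at h
  obtain ⟨e1, e2⟩ := X_inj h.1 (by omega) (by omega)
  obtain ⟨e3, e4⟩ := X_inj h.2 (by omega) (by omega)
  exact ⟨Prod.ext e1 e3, Prod.ext e2 e4⟩

theorem card_cuts {a b : ℕ} {l : Bool × Bool → YoungDiagram}
    (h : ∀ c c' p p', p ∈ l c → p' ∈ l c' → emb a b c p = emb a b c' p' → c = c' ∧ p = p') :
    (cuts a b l).card = total l := by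
  classical
  rw [cuts, Finset.card_biUnion]
  · unfold total
    refine Finset.sum_congr rfl fun c _ => ?_
    rw [Finset.card_image_of_injOn]
    · intro p hp p' hp' hh
      exact (h c c p p' hp hp' hh).2
  · intro c _ c' _ hcc
    simp only [Function.onFun]
    rw [Finset.disjoint_left]
    intro q hq hq'
    rw [Finset.mem_image] at hq hq'
    obtain ⟨p, hp, rfl⟩ := hq
    obtain ⟨p', hp', h2⟩ := hq'
    exact hcc (h c c' p p' hp hp' h2.symm).1

theorem X_mem {a : ℕ} {σ : Bool} {i : ℕ} (hi : i < a) : 0 ≤ X a σ i ∧ X a σ i < a := by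
  unfold X
  cases σ <;> simp <;> omega

theorem cuts_sub_box {a b : ℕ} {l : Bool × Bool → YoungDiagram} (ha : total l < a)
    (hb : total l < b) : cuts a b l ⊆ box a b := by
  intro q hq
  rw [mem_cuts] at hq
  obtain ⟨c, p, hp, rfl⟩ := hq
  have h1 := coord_lt (l c) hp
  have h2 := card_le_total l c
  rw [mem_box, emb]
  exact ⟨X_mem (by omega), X_mem (by omega)⟩

theorem card_box (a b : ℕ) : (box a b).card = a * b := by
  rw [box, Finset.card_product, Int.card_Ico, Int.card_Ico]; simp

theorem card_cut {a b : ℕ} {l : Bool × Bool → YoungDiagram} (ha : 2 * total l + 1 ≤ a)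
    (hb : 2 * total l + 1 ≤ b) : (cut a b l).card + total l = a * b := by
  classical
  have h1 := card_cuts (a := a) (b := b) (l := l)
    (fun c c' p p' hp hp' h => emb_inj ha hb ha hb hp hp' h)
  have h2 := cuts_sub_box (l := l) (a := a) (b := b) (by omega) (by omega)
  rw [cut, ← card_box a b, ← h1]
  exact Finset.card_sdiff_add_card_eq_card h2

/-- On which side of `i0`. -/
def side (σ : Bool) (x i0 : ℤ) : Prop := if σ then i0 < x else x < i0

theorem side_cases {x i0 : ℤ} (h : x ≠ i0) : ∃ σ, side σ x i0 := by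
  rcases lt_or_gt_of_ne h with h | h
  · exact ⟨false, by simpa [side] using h⟩
  · exact ⟨true, by simpa [side] using h⟩

theorem side_unique {x i0 : ℤ} {σ σ' : Bool} (h : side σ x i0) (h' : side σ' x i0) : σ = σ' := by
  unfold side at h h'
  cases σ <;> cases σ' <;> simp at h h' ⊢ <;> omega

theorem exists_X {a : ℕ} (σ : Bool) {x : ℤ} (h : 0 ≤ x ∧ x < a) : ∃ i, i < a ∧ X a σ i = x := by
  cases σ
  · exact ⟨x.toNat, by omega, by simp [X]; omega⟩
  · exact ⟨((a : ℤ) - 1 - x).toNat, by omega, by simp [X]; omega⟩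

variable {m a b : ℕ} {S : Finset Pt}

open Classical in
/-- **Structure of polygons of nearly maximal area**: if the bounding box has half-perimeter `m`
and fewer than `min a b` squares are missing, then the missing squares form four Young diagrams at
the corners. -/
theorem Shape.exists_cut (h : Shape m a b S) (hab : a + b = m) (h1 : a * b < S.card + a)
    (h2 : a * b < S.card + b) : ∃ l, S = cut a b l ∧ S.card + total l = a * b := by
  -- all rows and columns are intervals
  have hex := h.excess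
  have hcol : ∀ i : ℤ, (bd (col S i)).card ≤ 2 := by
    intro i
    by_cases hi : i ∈ Finset.Ico 0 (a : ℤ)
    · have h3 : (bd (col S i)).card - 2 ≤
          ∑ i ∈ Finset.Ico 0 (a : ℤ), ((bd (col S i)).card - 2) :=
        Finset.single_le_sum (f := fun i => (bd (col S i)).card - 2)
          (fun _ _ => Nat.zero_le _) hi
      omega
    · rw [← h.cols] at hi
      have : bd (col S i) = ∅ := by
        rw [Finset.eq_empty_iff_forall_notMem]
        intro y hy
        exact hi (col_of_edge hy)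
      rw [this]; simp
  have hrow : ∀ j : ℤ, (bd (row S j)).card ≤ 2 := by
    intro i
    by_cases hi : i ∈ Finset.Ico 0 (b : ℤ)
    · have h3 : (bd (row S i)).card - 2 ≤
          ∑ i ∈ Finset.Ico 0 (b : ℤ), ((bd (row S i)).card - 2) :=
        Finset.single_le_sum (f := fun i => (bd (row S i)).card - 2)
          (fun _ _ => Nat.zero_le _) hi
      omega
    · rw [← h.rows] at hi
      have : bd (row S i) = ∅ := by
        rw [Finset.eq_empty_iff_forall_notMem]
        intro y hy
        exact hi (row_of_edge hy)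
      rw [this]; simp
  have cI : ∀ x y1 y2 y : ℤ, (x, y1) ∈ S → (x, y2) ∈ S → ((y1 ≤ y ∧ y ≤ y2) ∨ (y2 ≤ y ∧ y ≤ y1)) →
      (x, y) ∈ S := by
    intro x y1 y2 y g1 g2 g3
    rw [← mem_col] at g1 g2 ⊢
    rcases g3 with g3 | g3
    · exact ordConn_of_bd (hcol x) g1 g2 g3.1 g3.2
    · exact ordConn_of_bd (hcol x) g2 g1 g3.1 g3.2
  have rI : ∀ y x1 x2 x : ℤ, (x1, y) ∈ S → (x2, y) ∈ S → ((x1 ≤ x ∧ x ≤ x2) ∨ (x2 ≤ x ∧ x ≤ x1)) →
      (x, y) ∈ S := by
    intro y x1 x2 x g1 g2 g3
    rw [← mem_row] at g1 g2 ⊢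
    rcases g3 with g3 | g3
    · exact ordConn_of_bd (hrow y) g1 g2 g3.1 g3.2
    · exact ordConn_of_bd (hrow y) g2 g1 g3.1 g3.2
  -- a full column and a full row
  have hi0 : ∃ i0 ∈ Finset.Ico 0 (a : ℤ), ∀ y : ℤ, 0 ≤ y → y < b → (i0, y) ∈ S := by
    by_contra hcon
    push Not at hcon
    have h3 := h.missing
    have h4 : ∑ i ∈ Finset.Ico 0 (a : ℤ), 1 ≤ ∑ i ∈ Finset.Ico 0 (a : ℤ), (b - (col S i).card) := by
      refine Finset.sum_le_sum fun i hi => ?_
      obtain ⟨y, hy0, hy1, hy2⟩ := hcon i hi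
      have h5 : col S i ⊂ Finset.Ico 0 (b : ℤ) := by
        refine Finset.ssubset_iff_subset_ne.2 ⟨h.col_sub i, fun h6 => hy2 ?_⟩
        rw [← mem_col, h6, Finset.mem_Ico]
        exact ⟨hy0, hy1⟩
      have h6 := Finset.card_lt_card h5
      rw [Int.card_Ico] at h6
      omega
    rw [Finset.sum_const, Int.card_Ico] at h4
    simp only [sub_zero, Int.toNat_natCast, smul_eq_mul, mul_one] at h4
    omega
  have hj0 : ∃ j0 ∈ Finset.Ico 0 (b : ℤ), ∀ x : ℤ, 0 ≤ x → x < a → (x, j0) ∈ S := by
    by_contra hcon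
    push Not at hcon
    have h3 := h.missing'
    have h4 : ∑ i ∈ Finset.Ico 0 (b : ℤ), 1 ≤ ∑ i ∈ Finset.Ico 0 (b : ℤ), (a - (row S i).card) := by
      refine Finset.sum_le_sum fun i hi => ?_
      obtain ⟨y, hy0, hy1, hy2⟩ := hcon i hi
      have h5 : row S i ⊂ Finset.Ico 0 (a : ℤ) := by
        refine Finset.ssubset_iff_subset_ne.2 ⟨h.row_sub i, fun h6 => hy2 ?_⟩
        rw [← mem_row, h6, Finset.mem_Ico]
        exact ⟨hy0, hy1⟩
      have h6 := Finset.card_lt_card h5
      rw [Int.card_Ico] at h6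
      omega
    rw [Finset.sum_const, Int.card_Ico] at h4
    simp only [sub_zero, Int.toNat_natCast, smul_eq_mul, mul_one] at h4
    omega
  obtain ⟨i0, hi0, hfc⟩ := hi0
  obtain ⟨j0, hj0, hfr⟩ := hj0
  rw [Finset.mem_Ico] at hi0 hj0
  -- the four diagrams
  let l : Bool × Bool → YoungDiagram := fun c =>
    { cells := ((Finset.range a) ×ˢ (Finset.range b)).filter (fun p =>
        side c.1 (X a c.1 p.1) i0 ∧ side c.2 (X b c.2 p.2) j0 ∧ emb a b c p ∉ S)
      isLowerSet := by
        intro q p hpq hq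
        rw [Finset.coe_filter, Set.mem_ofPred_eq, Finset.mem_product, Finset.mem_range,
          Finset.mem_range] at hq ⊢
        obtain ⟨⟨hq1, hq2⟩, hq3, hq4, hq5⟩ := hq
        have hp1 : p.1 ≤ q.1 := hpq.1
        have hp2 : p.2 ≤ q.2 := hpq.2
        have hs1 : side c.1 (X a c.1 p.1) i0 := by
          revert hq3
          unfold side X
          cases c.1 <;> simp <;> omega
        have hs2 : side c.2 (X b c.2 p.2) j0 := by
          revert hq4
          unfold side X
          cases c.2 <;> simp <;> omega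
        refine ⟨⟨by omega, by omega⟩, hs1, hs2, fun hp => hq5 ?_⟩
        have g1 := X_mem (σ := c.1) (by omega : p.1 < a)
        have g2 := X_mem (σ := c.2) (by omega : p.2 < b)
        have g3 := X_mem (σ := c.1) hq1
        have g4 := X_mem (σ := c.2) hq2
        -- column of p
        have e1 : (X a c.1 p.1, X b c.2 q.2) ∈ S := by
          refine cI _ (X b c.2 p.2) j0 _ hp (hfr _ g1.1 g1.2) ?_
          revert hq4
          unfold side X
          cases c.2 <;> simp <;> omega
        refine rI _ (X a c.1 p.1) i0 _ e1 (hfc _ g4.1 g4.2) ?_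
        revert hq3
        unfold side X
        cases c.1 <;> simp <;> omega }
  have hl : ∀ c p, p ∈ l c ↔ ((p.1 < a ∧ p.2 < b) ∧ side c.1 (X a c.1 p.1) i0 ∧
      side c.2 (X b c.2 p.2) j0 ∧ emb a b c p ∉ S) := by
    intro c p
    rw [← YoungDiagram.mem_cells, Finset.mem_filter, Finset.mem_product, Finset.mem_range,
      Finset.mem_range]
  have hS : S = cut a b l := by
    ext q
    rw [mem_cut]
    constructor
    · intro hq
      refine ⟨SAP.mem_box.2 (h.mem_box hq), ?_⟩
      rintro ⟨c, p, hp, rfl⟩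
      rw [hl] at hp
      exact hp.2.2.2 hq
    · rintro ⟨hq, hq'⟩
      by_contra hqS
      apply hq'
      rw [SAP.mem_box] at hq
      have n1 : q.1 ≠ i0 := by
        intro h5
        apply hqS
        have : q = (i0, q.2) := Prod.ext h5 rfl
        rw [this]
        exact hfc _ hq.2.1 hq.2.2
      have n2 : q.2 ≠ j0 := by
        intro h5
        apply hqS
        have : q = (q.1, j0) := Prod.ext rfl h5
        rw [this]
        exact hfr _ hq.1.1 hq.1.2
      obtain ⟨σ, hσ⟩ := side_cases n1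
      obtain ⟨τ, hτ⟩ := side_cases n2
      obtain ⟨i, hi, hi'⟩ := exists_X σ hq.1
      obtain ⟨j, hj, hj'⟩ := exists_X τ hq.2
      have he : emb a b (σ, τ) (i, j) = q := by
        rw [emb]
        exact Prod.ext hi' hj'
      refine ⟨(σ, τ), (i, j), ?_, he⟩
      rw [hl]
      refine ⟨⟨hi, hj⟩, ?_, ?_, ?_⟩
      · simpa [hi'] using hσ
      · simpa [hj'] using hτ
      · rw [he]; exact hqS
  refine ⟨l, hS, ?_⟩
  have hc : (cuts a b l).card = total l := by
    apply card_cuts
    intro c c' p p' hp hp' he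
    rw [hl] at hp hp'
    rw [emb, emb, Prod.mk.injEq] at he
    have e1 : c.1 = c'.1 := side_unique (he.1 ▸ hp.2.1) hp'.2.1
    have e2 : c.2 = c'.2 := side_unique (he.2 ▸ hp.2.2.1) hp'.2.2.1
    refine ⟨Prod.ext e1 e2, ?_⟩
    rw [e1, e2] at he
    refine Prod.ext ?_ ?_
    · have := he.1
      unfold X at this
      revert this
      cases c'.1 <;> simp
    · have := he.2
      unfold X at this
      revert this
      cases c'.2 <;> simp
  have hsub : cuts a b l ⊆ box a b := by
    intro q hq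
    rw [mem_cuts] at hq
    obtain ⟨c, p, hp, rfl⟩ := hq
    rw [hl] at hp
    rw [SAP.mem_box, emb]
    exact ⟨X_mem hp.1.1, X_mem hp.1.2⟩
  rw [hS, ← hc, ← card_box a b, cut]
  exact Finset.card_sdiff_add_card_eq_card hsub

end Pool.Agent.Q291.SAP
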