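import Pool.Agent.Q291.SAP.C

/-!
# Rectangles without four Young diagrams at the corners are polygons
-/

set_option autoImplicit false

namespace Pool.Agent.Q291.SAP

/-! ### The rectangle -/

/-- The path around the rectangle. -/
def rectPt (a b : ℕ) (k : ℕ) : Pt :=
  (max 0 (min (k : ℤ) (min (a : ℤ) (2 * a + b - k))),
   max 0 (min ((k : ℤ) - a) (min (b : ℤ) (2 * a + 2 * b - k))))

theorem val_succ {m : ℕ} (hm : 1 ≤ m) (k : ZMod (2 * m)) :
    ((k + 1).val = k.val + 1 ∧ k.val + 1 < 2 * m) ∨ ((k + 1).val = 0 ∧ k.val + 1 = 2 * m) := by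
  have : NeZero (2 * m) := ⟨by omega⟩
  have : Fact (1 < 2 * m) := ⟨by omega⟩
  have h1 := ZMod.val_lt k
  have h2 : (k + 1).val = (k.val + 1) % (2 * m) := by
    rw [ZMod.val_add, ZMod.val_one]
  rcases Nat.lt_or_ge (k.val + 1) (2 * m) with h3 | h3
  · left
    rw [h2, Nat.mod_eq_of_lt h3]
    exact ⟨rfl, h3⟩
  · right
    have h4 : k.val + 1 = 2 * m := by omega
    rw [h2, h4, Nat.mod_self]
    exact ⟨rfl, rfl⟩

theorem rectPt_succ {a b : ℕ} (ha : 1 ≤ a) (k : ZMod (2 * (a + b))) :
    rectPt a b (k + 1).val = rectPt a b (k.val + 1) := by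
  rcases val_succ (by omega) k with ⟨h1, -⟩ | ⟨h1, h2⟩
  · rw [h1]
  · rw [h1, h2]
    unfold rectPt
    refine Prod.ext ?_ ?_ <;> simp only <;> push_cast <;> omega

theorem rect_encloses {a b : ℕ} (ha : 1 ≤ a) (hb : 1 ≤ b) :
    Encloses (a + b) (fun k => rectPt a b k.val) (box a b) := by
  have : NeZero (2 * (a + b)) := ⟨by omega⟩
  refine ⟨?_, ?_, ?_, ?_⟩
  · intro k k' h
    have h1 := ZMod.val_lt k
    have h2 := ZMod.val_lt k'
    apply ZMod.val_injective (2 * (a + b))
    simp only [rectPt, Prod.mk.injEq] at h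
    omega
  · intro k
    have h1 := ZMod.val_lt k
    simp only [rectPt_succ ha k]
    unfold Adj rectPt
    push_cast
    omega
  · intro i y
    have hx : Xor ((i, y - 1) ∈ box a b) ((i, y) ∈ box a b) ↔
        ((0 ≤ i ∧ i < a) ∧ (y = 0 ∨ y = b)) := by
      rw [mem_box, mem_box]
      simp only [Xor]
      omega
    rw [hx]
    constructor
    · rintro ⟨⟨h1, h2⟩, h3 | h3⟩
      · have e1 : ((i.toNat : ℕ) : ZMod (2 * (a + b))).val = i.toNat :=
          ZMod.val_cast_of_lt (by omega)
        refine ⟨(i.toNat : ℕ), Or.inl ⟨?_, ?_⟩⟩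
        · simp only [e1, rectPt, Prod.mk.injEq]
          omega
        · simp only [rectPt_succ ha]
          simp only [e1, rectPt, Prod.mk.injEq]
          push_cast
          omega
      · have e1 : ((2 * a + b - 1 - i.toNat : ℕ) : ZMod (2 * (a + b))).val =
            2 * a + b - 1 - i.toNat := ZMod.val_cast_of_lt (by omega)
        have e2 : ((2 * a + b - 1 - i.toNat : ℕ) : ℤ) = 2 * a + b - 1 - i := by omega
        refine ⟨(2 * a + b - 1 - i.toNat : ℕ), Or.inr ⟨?_, ?_⟩⟩
        · simp only [e1, rectPt, Prod.mk.injEq, e2]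
          omega
        · simp only [rectPt_succ ha]
          simp only [e1, rectPt, Prod.mk.injEq]
          rw [Nat.cast_add, e2]
          push_cast
          omega
    · rintro ⟨k, hk⟩
      have h1 := ZMod.val_lt k
      simp only [rectPt_succ ha] at hk
      simp only [rectPt, Prod.mk.injEq] at hk
      push_cast at hk
      omega
  · intro x j
    have hx : Xor ((x - 1, j) ∈ box a b) ((x, j) ∈ box a b) ↔
        ((0 ≤ j ∧ j < b) ∧ (x = 0 ∨ x = a)) := by
      rw [mem_box, mem_box]
      simp only [Xor]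
      omega
    rw [hx]
    constructor
    · rintro ⟨⟨h1, h2⟩, h3 | h3⟩
      · have e1 : ((2 * a + 2 * b - 1 - j.toNat : ℕ) : ZMod (2 * (a + b))).val =
            2 * a + 2 * b - 1 - j.toNat := ZMod.val_cast_of_lt (by omega)
        have e2 : ((2 * a + 2 * b - 1 - j.toNat : ℕ) : ℤ) = 2 * a + 2 * b - 1 - j := by omega
        refine ⟨(2 * a + 2 * b - 1 - j.toNat : ℕ), Or.inr ⟨?_, ?_⟩⟩
        · simp only [e1, rectPt, Prod.mk.injEq, e2]
          omega
        · simp only [rectPt_succ ha]
          simp only [e1, rectPt, Prod.mk.injEq]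
          rw [Nat.cast_add, e2]
          push_cast
          omega
      · have e1 : ((a + j.toNat : ℕ) : ZMod (2 * (a + b))).val = a + j.toNat :=
          ZMod.val_cast_of_lt (by omega)
        refine ⟨(a + j.toNat : ℕ), Or.inl ⟨?_, ?_⟩⟩
        · simp only [e1, rectPt, Prod.mk.injEq]
          push_cast
          omega
        · simp only [rectPt_succ ha]
          simp only [e1, rectPt, Prod.mk.injEq]
          push_cast
          omega
    · rintro ⟨k, hk⟩
      have h1 := ZMod.val_lt k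
      simp only [rectPt_succ ha] at hk
      simp only [rectPt, Prod.mk.injEq] at hk
      push_cast at hk
      omega

/-! ### Reflections -/

theorem uses_symm {m : ℕ} {v : ZMod (2 * m) → Pt} {p q : Pt} : Uses v p q ↔ Uses v q p := by
  unfold Uses
  constructor
  · rintro ⟨k, h | h⟩
    · exact ⟨k, Or.inr h⟩
    · exact ⟨k, Or.inl h⟩
  · rintro ⟨k, h | h⟩
    · exact ⟨k, Or.inr h⟩
    · exact ⟨k, Or.inl h⟩

variable {m : ℕ} {v : ZMod (2 * m) → Pt} {S : Finset Pt}

theorem reflX (A : ℤ) (h : Encloses m v S) {S' : Finset Pt}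
    (hS' : ∀ q : Pt, q ∈ S' ↔ (A - 1 - q.1, q.2) ∈ S) :
    Encloses m (fun k => (A - (v k).1, (v k).2)) S' := by
  have hu : ∀ p q : Pt, Uses (fun k => (A - (v k).1, (v k).2)) p q ↔
      Uses v (A - p.1, p.2) (A - q.1, q.2) := by
    intro p q
    unfold Uses
    refine exists_congr fun k => ?_
    simp only [Prod.ext_iff]
    omega
  refine ⟨?_, ?_, ?_, ?_⟩
  · intro k k' hk
    apply h.inj
    simp only [Prod.mk.injEq] at hk
    exact Prod.ext (by omega) hk.2
  · intro k
    have := h.adj k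
    unfold Adj at this ⊢
    simp only
    omega
  · intro i y
    rw [hu, uses_symm, hS', hS']
    simp only
    have e1 : A - (i + 1) = A - 1 - i := by ring
    have e2 : A - i = A - 1 - i + 1 := by ring
    rw [e1, e2]
    exact h.hor (A - 1 - i) y
  · intro x j
    rw [hu, hS', hS']
    simp only
    have e1 : A - 1 - (x - 1) = A - x := by ring
    have e2 : A - 1 - x = A - x - 1 := by ring
    rw [e1, e2, xor_comm]
    exact h.ver (A - x) j

theorem reflY (A : ℤ) (h : Encloses m v S) {S' : Finset Pt}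
    (hS' : ∀ q : Pt, q ∈ S' ↔ (q.1, A - 1 - q.2) ∈ S) :
    Encloses m (fun k => ((v k).1, A - (v k).2)) S' := by
  have hu : ∀ p q : Pt, Uses (fun k => ((v k).1, A - (v k).2)) p q ↔
      Uses v (p.1, A - p.2) (q.1, A - q.2) := by
    intro p q
    unfold Uses
    refine exists_congr fun k => ?_
    simp only [Prod.ext_iff]
    omega
  refine ⟨?_, ?_, ?_, ?_⟩
  · intro k k' hk
    apply h.inj
    simp only [Prod.mk.injEq] at hk
    exact Prod.ext hk.1 (by omega)
  · intro k
    have := h.adj k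
    unfold Adj at this ⊢
    simp only
    omega
  · intro i y
    rw [hu, hS', hS']
    simp only
    have e1 : A - 1 - (y - 1) = A - y := by ring
    have e2 : A - 1 - y = A - y - 1 := by ring
    rw [e1, e2, xor_comm]
    exact h.hor i (A - y)
  · intro x j
    rw [hu, uses_symm, hS', hS']
    simp only
    have e1 : A - (j + 1) = A - 1 - j := by ring
    have e2 : A - j = A - 1 - j + 1 := by ring
    rw [e1, e2]
    exact h.ver x (A - 1 - j)

/-! ### Removing a corner square -/

theorem flip (hm : 1 ≤ m) (h : Encloses m v S) {x y : ℤ} (h0 : (x, y) ∈ S) (h1 : (x - 1, y) ∉ S)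
    (h2 : (x, y - 1) ∉ S) (h3 : (x - 1, y - 1) ∉ S) (h4 : (x + 1, y) ∈ S) (h5 : (x, y + 1) ∈ S)
    (h6 : (x + 1, y + 1) ∈ S) {S' : Finset Pt} (hS' : ∀ q : Pt, q ∈ S' ↔ q ∈ S ∧ q ≠ (x, y)) :
    IsPolygon m S' := by
  have : NeZero (2 * m) := ⟨by omega⟩
  have : Fact (1 < 2 * m) := ⟨by omega⟩
  have h10 : (1 : ZMod (2 * m)) ≠ 0 := one_ne_zero
  -- the two edges at (x,y)
  have u1 : Uses v (x, y) (x + 1, y) := (h.hor x y).1 (Or.inr ⟨h0, h2⟩)
  have u2 : Uses v (x, y) (x, y + 1) := (h.ver x y).1 (Or.inr ⟨h0, h1⟩)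
  -- the opposite point is not on the path
  have hp' : ∀ k, v k ≠ (x + 1, y + 1) := by
    intro k hk
    have g : ∀ q, v (k + 1) = q → Adj (x + 1, y + 1) q → False := by
      intro q hq hadj
      have hu : Uses v (x + 1, y + 1) q := ⟨k, Or.inl ⟨hk, hq⟩⟩
      obtain ⟨q1, q2⟩ := q
      unfold Adj at hadj
      simp only at hadj
      rcases hadj with ⟨e1, e2 | e2⟩ | ⟨e1, e2 | e2⟩
      · subst e1; subst e2
        rw [← h.hor] at hu
        rcases hu with ⟨a1, a2⟩ | ⟨a1, a2⟩
        · exact a2 h6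
        · apply a2
          have : (x + 1, y + 1 - 1) = (x + 1, y) := by ring_nf
          rw [this]; exact h4
      · have e3 : q1 = x := by omega
        subst e1; subst e3
        rw [uses_symm, ← h.hor] at hu
        rcases hu with ⟨a1, a2⟩ | ⟨a1, a2⟩
        · exact a2 h5
        · apply a2
          have : (q1, y + 1 - 1) = (q1, y) := by ring_nf
          rw [this]; exact h0
      · subst e1; subst e2
        rw [← h.ver] at hu
        rcases hu with ⟨a1, a2⟩ | ⟨a1, a2⟩
        · exact a2 h6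
        · apply a2
          have : (x + 1 - 1, y + 1) = (x, y + 1) := by ring_nf
          rw [this]; exact h5
      · have e3 : q2 = y := by omega
        subst e1; subst e3
        rw [uses_symm, ← h.ver] at hu
        rcases hu with ⟨a1, a2⟩ | ⟨a1, a2⟩
        · exact a2 h4
        · apply a2
          have : (x + 1 - 1, q2) = (x, q2) := by ring_nf
          rw [this]; exact h0
    refine g _ rfl ?_
    rw [← hk]; exact h.adj k
  -- the index of (x,y) and its neighbours
  have hk0 : ∃ k0, v k0 = (x, y) ∧ ((v (k0 + 1) = (x + 1, y) ∧ v (k0 - 1) = (x, y + 1)) ∨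
      (v (k0 + 1) = (x, y + 1) ∧ v (k0 - 1) = (x + 1, y))) := by
    obtain ⟨k, hk⟩ := u1
    obtain ⟨k', hk'⟩ := u2
    rcases hk with hk | hk <;> rcases hk' with hk' | hk'
    · exfalso
      have : k = k' := h.inj (hk.1.trans hk'.1.symm)
      subst this
      have := hk.2.symm.trans hk'.2
      simp at this
    · have : k = k' + 1 := h.inj (hk.1.trans hk'.2.symm)
      refine ⟨k, hk.1, Or.inl ⟨hk.2, ?_⟩⟩
      rw [this, add_sub_cancel_right]
      exact hk'.1
    · have : k + 1 = k' := h.inj (hk.2.trans hk'.1.symm)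
      refine ⟨k', hk'.1, Or.inr ⟨hk'.2, ?_⟩⟩
      rw [← this, add_sub_cancel_right]
      exact hk.1
    · exfalso
      have : k + 1 = k' + 1 := h.inj (hk.2.trans hk'.2.symm)
      have : k = k' := by simpa using this
      subst this
      have := hk.1.symm.trans hk'.1
      simp at this
  obtain ⟨k0, hk0, hnb⟩ := hk0
  classical
  have ne1 : k0 + 1 ≠ k0 := by simp
  have ne2 : k0 - 1 ≠ k0 := by simp
  let w : ZMod (2 * m) → Pt := Function.update v k0 (x + 1, y + 1)
  have w0 : w k0 = (x + 1, y + 1) := Function.update_self _ _ _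
  have w1 : ∀ k, k ≠ k0 → w k = v k := fun k hk => Function.update_of_ne hk _ _
  have hu : ∀ p q : Pt, Uses w p q ↔ ((Uses v p q ∧ p ≠ (x, y) ∧ q ≠ (x, y)) ∨
      (p = (x + 1, y + 1) ∧ (q = (x + 1, y) ∨ q = (x, y + 1))) ∨
      (q = (x + 1, y + 1) ∧ (p = (x + 1, y) ∨ p = (x, y + 1)))) := by
    intro p q
    constructor
    · rintro ⟨k, hk⟩
      by_cases e0 : k = k0
      · subst e0
        rw [w0, w1 _ ne1] at hk
        right
        rcases hnb with ⟨g1, g2⟩ | ⟨g1, g2⟩
        · rw [g1] at hk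
          rcases hk with ⟨rfl, rfl⟩ | ⟨rfl, rfl⟩
          · left; exact ⟨rfl, Or.inl rfl⟩
          · right; exact ⟨rfl, Or.inl rfl⟩
        · rw [g1] at hk
          rcases hk with ⟨rfl, rfl⟩ | ⟨rfl, rfl⟩
          · left; exact ⟨rfl, Or.inr rfl⟩
          · right; exact ⟨rfl, Or.inr rfl⟩
      · by_cases e1 : k + 1 = k0
        · have e2 : k = k0 - 1 := by rw [← e1]; ring
          rw [e1, w0, w1 _ e0, e2] at hk
          right
          rcases hnb with ⟨g1, g2⟩ | ⟨g1, g2⟩
          · rw [g2] at hk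
            rcases hk with ⟨rfl, rfl⟩ | ⟨rfl, rfl⟩
            · right; exact ⟨rfl, Or.inr rfl⟩
            · left; exact ⟨rfl, Or.inr rfl⟩
          · rw [g2] at hk
            rcases hk with ⟨rfl, rfl⟩ | ⟨rfl, rfl⟩
            · right; exact ⟨rfl, Or.inl rfl⟩
            · left; exact ⟨rfl, Or.inl rfl⟩
        · left
          rw [w1 _ e0, w1 _ e1] at hk
          have n1 : v k ≠ (x, y) := fun e => e0 (h.inj (e.trans hk0.symm))
          have n2 : v (k + 1) ≠ (x, y) := fun e => e1 (h.inj (e.trans hk0.symm))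
          refine ⟨⟨k, hk⟩, ?_⟩
          rcases hk with ⟨rfl, rfl⟩ | ⟨rfl, rfl⟩
          · exact ⟨n1, n2⟩
          · exact ⟨n2, n1⟩
    · have s1 : ∀ q, (q = (x + 1, y) ∨ q = (x, y + 1)) → Uses w (x + 1, y + 1) q := by
        intro q hq
        have c1 : v (k0 + 1) = q ∨ v (k0 - 1) = q := by
          rcases hnb with ⟨g1, g2⟩ | ⟨g1, g2⟩ <;> rcases hq with rfl | rfl
          · exact Or.inl g1
          · exact Or.inr g2
          · exact Or.inr g2
          · exact Or.inl g1
        rcases c1 with c1 | c1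
        · refine ⟨k0, Or.inl ⟨w0, ?_⟩⟩
          rw [w1 _ ne1]; exact c1
        · refine ⟨k0 - 1, Or.inr ⟨?_, ?_⟩⟩
          · rw [w1 _ ne2]; exact c1
          · rw [sub_add_cancel]; exact w0
      rintro (⟨⟨k, hk⟩, n1, n2⟩ | ⟨rfl, hq⟩ | ⟨rfl, hp⟩)
      · have e0 : k ≠ k0 := by
          rintro rfl
          rcases hk with hk | hk
          · exact n1 (hk.1.symm.trans hk0)
          · exact n2 (hk.1.symm.trans hk0)
        have e1 : k + 1 ≠ k0 := by
          intro e
          rw [e] at hk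
          rcases hk with hk | hk
          · exact n2 (hk.2.symm.trans hk0)
          · exact n1 (hk.2.symm.trans hk0)
        refine ⟨k, ?_⟩
        rw [w1 _ e0, w1 _ e1]; exact hk
      · exact s1 q hq
      · rw [uses_symm]; exact s1 p hp
  refine ⟨w, ?_, ?_, ?_, ?_⟩
  · intro k k' hk
    by_cases e0 : k = k0 <;> by_cases e1 : k' = k0
    · rw [e0, e1]
    · rw [e0, w0, w1 _ e1] at hk
      exact absurd hk.symm (hp' _)
    · rw [e1, w0, w1 _ e0] at hk
      exact absurd hk (hp' _)
    · rw [w1 _ e0, w1 _ e1] at hk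
      exact h.inj hk
  · intro k
    by_cases e0 : k = k0
    · subst e0
      rw [w0, w1 _ ne1]
      unfold Adj
      rcases hnb with ⟨g1, g2⟩ | ⟨g1, g2⟩ <;> rw [g1] <;> simp
    · by_cases e1 : k + 1 = k0
      · have e2 : k = k0 - 1 := by rw [← e1]; ring
        rw [e1, w0, w1 _ e0, e2]
        unfold Adj
        rcases hnb with ⟨g1, g2⟩ | ⟨g1, g2⟩ <;> rw [g2] <;> simp
      · rw [w1 _ e0, w1 _ e1]
        exact h.adj k
  · intro i j
    rw [hu, ← h.hor, hS', hS']
    by_cases c1 : i = x ∧ j = y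
    · obtain ⟨rfl, rfl⟩ := c1
      simp [h2]
    · by_cases c2 : i = x ∧ j = y + 1
      · obtain ⟨rfl, rfl⟩ := c2
        simp [h5, Xor]
      · by_cases c3 : i = x - 1 ∧ j = y
        · obtain ⟨rfl, rfl⟩ := c3
          simp [h1, h3, Xor]
        · have d1 : ((i, j - 1) : Pt) ≠ (x, y) := by
            intro e; rw [Prod.mk.injEq] at e; omega
          have d2 : ((i, j) : Pt) ≠ (x, y) := by
            intro e; rw [Prod.mk.injEq] at e; omega
          have d3 : ((i + 1, j) : Pt) ≠ (x, y) := by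
            intro e; rw [Prod.mk.injEq] at e; omega
          have d4 : ¬ ((i, j) = (x + 1, y + 1) ∧ ((i + 1, j) = (x + 1, y) ∨
              (i + 1, j) = (x, y + 1))) := by
            simp only [Prod.mk.injEq]; omega
          have d5 : ¬ ((i + 1, j) = (x + 1, y + 1) ∧ ((i, j) = (x + 1, y) ∨
              (i, j) = (x, y + 1))) := by
            simp only [Prod.mk.injEq]; omega
          simp only [ne_eq, d1, d2, d3, d4, d5, not_false_eq_true, and_true, or_false]
  · intro i j
    rw [hu, ← h.ver, hS', hS']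
    by_cases c1 : i = x ∧ j = y
    · obtain ⟨rfl, rfl⟩ := c1
      simp [h1]
    · by_cases c2 : i = x + 1 ∧ j = y
      · obtain ⟨rfl, rfl⟩ := c2
        simp [h4, Xor]
      · by_cases c3 : i = x ∧ j = y - 1
        · obtain ⟨rfl, rfl⟩ := c3
          simp [h2, h3, Xor]
        · have d1 : ((i - 1, j) : Pt) ≠ (x, y) := by
            intro e; rw [Prod.mk.injEq] at e; omega
          have d2 : ((i, j) : Pt) ≠ (x, y) := by
            intro e; rw [Prod.mk.injEq] at e; omega
          have d3 : ((i, j + 1) : Pt) ≠ (x, y) := by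
            intro e; rw [Prod.mk.injEq] at e; omega
          have d4 : ¬ ((i, j) = (x + 1, y + 1) ∧ ((i, j + 1) = (x + 1, y) ∨
              (i, j + 1) = (x, y + 1))) := by
            simp only [Prod.mk.injEq]; omega
          have d5 : ¬ ((i, j + 1) = (x + 1, y + 1) ∧ ((i, j) = (x + 1, y) ∨
              (i, j) = (x, y + 1))) := by
            simp only [Prod.mk.injEq]; omega
          simp only [ne_eq, d1, d2, d3, d4, d5, not_false_eq_true, and_true, or_false]

end Pool.Agent.Q291.SAP
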