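import Pool.Agent.Q291.SAP.D

/-!
# Rectangles without four Young diagrams at the corners are polygons: the induction
-/

set_option autoImplicit false

namespace Pool.Agent.Q291.SAP

variable {m a b : ℕ}

theorem X_not (a : ℕ) (σ : Bool) (i : ℕ) : X a (!σ) i = a - 1 - X a σ i := by
  unfold X
  cases σ <;> simp

theorem mem_cut_reflX {l : Bool × Bool → YoungDiagram} {q : Pt} :
    q ∈ cut a b l ↔ ((a : ℤ) - 1 - q.1, q.2) ∈ cut a b (fun c => l (!c.1, c.2)) := by
  rw [mem_cut, mem_cut, mem_box, mem_box]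
  refine and_congr (by simp only; omega) (not_congr ?_)
  constructor
  · rintro ⟨c, p, hp, rfl⟩
    refine ⟨(!c.1, c.2), p, by simpa using hp, ?_⟩
    simp only [emb, X_not]
  · rintro ⟨c, p, hp, h⟩
    refine ⟨(!c.1, c.2), p, hp, ?_⟩
    simp only [emb, X_not, Prod.ext_iff] at h ⊢
    exact ⟨by omega, h.2⟩

theorem mem_cut_reflY {l : Bool × Bool → YoungDiagram} {q : Pt} :
    q ∈ cut a b l ↔ (q.1, (b : ℤ) - 1 - q.2) ∈ cut a b (fun c => l (c.1, !c.2)) := by
  rw [mem_cut, mem_cut, mem_box, mem_box]
  refine and_congr (by simp only; omega) (not_congr ?_)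
  constructor
  · rintro ⟨c, p, hp, rfl⟩
    refine ⟨(c.1, !c.2), p, by simpa using hp, ?_⟩
    simp only [emb, X_not]
  · rintro ⟨c, p, hp, h⟩
    refine ⟨(c.1, !c.2), p, hp, ?_⟩
    simp only [emb, X_not, Prod.ext_iff] at h ⊢
    exact ⟨h.1, by omega⟩

theorem polygon_reflX {l : Bool × Bool → YoungDiagram}
    (h : IsPolygon m (cut a b (fun c => l (!c.1, c.2)))) : IsPolygon m (cut a b l) := by
  obtain ⟨v, hv⟩ := h
  exact ⟨_, reflX a hv (fun q => mem_cut_reflX)⟩

theorem polygon_reflY {l : Bool × Bool → YoungDiagram}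
    (h : IsPolygon m (cut a b (fun c => l (c.1, !c.2)))) : IsPolygon m (cut a b l) := by
  obtain ⟨v, hv⟩ := h
  exact ⟨_, reflY b hv (fun q => mem_cut_reflY)⟩

/-- Squares near the corner `(0,0)`. -/
theorem mem_cut_small {l : Bool × Bool → YoungDiagram} {i j : ℕ} (hi : i + total l < a)
    (hj : j + total l < b) : ((i : ℤ), (j : ℤ)) ∈ cut a b l ↔ (i, j) ∉ l (false, false) := by
  rw [mem_cut]
  constructor
  · rintro ⟨-, h⟩ hl
    exact h ⟨(false, false), (i, j), hl, rfl⟩
  · intro h
    refine ⟨mem_box.2 ⟨by simp only; omega, by simp only; omega⟩, ?_⟩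
    rintro ⟨⟨σ, τ⟩, p, hp, hh⟩
    have h1 := coord_lt _ hp
    have h2 := card_le_total l (σ, τ)
    rw [emb, Prod.mk.injEq] at hh
    obtain ⟨e1, e2⟩ := hh
    unfold X at e1 e2
    cases σ <;> cases τ <;> simp at e1 e2
    · apply h
      have : p = (i, j) := Prod.ext e1 e2
      rw [← this]; exact hp
    · omega
    · omega
    · omega

theorem not_mem_cut_left {l : Bool × Bool → YoungDiagram} {x y : ℤ} (h : x < 0 ∨ y < 0) :
    (x, y) ∉ cut a b l := by
  rw [mem_cut, mem_box]
  simp only
  omega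

/-- A maximal cell of a nonempty Young diagram. -/
theorem exists_maximal (μ : YoungDiagram) (h : μ.card ≠ 0) :
    ∃ p ∈ μ, (p.1 + 1, p.2) ∉ μ ∧ (p.1, p.2 + 1) ∉ μ ∧
      ∃ μ' : YoungDiagram, μ'.card + 1 = μ.card ∧ ∀ q, q ∈ μ' ↔ q ∈ μ ∧ q ≠ p := by
  classical
  have hne : μ.cells.Nonempty := by
    rw [Finset.nonempty_iff_ne_empty]
    intro h1
    apply h
    have : μ.card = μ.cells.card := rfl
    rw [this, h1, Finset.card_empty]
  obtain ⟨p, hp, hmax⟩ := Finset.exists_max_image μ.cells (fun p => p.1 + p.2) hne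
  refine ⟨p, hp, ?_, ?_, ?_⟩
  · intro h1
    have := hmax _ h1
    simp only at this
    omega
  · intro h1
    have := hmax _ h1
    simp only at this
    omega
  · refine ⟨⟨μ.cells.erase p, ?_⟩, ?_, ?_⟩
    · intro q q' hq' hq
      rw [Finset.coe_erase, Set.mem_diff, Set.mem_singleton_iff] at hq ⊢
      refine ⟨μ.isLowerSet hq' hq.1, ?_⟩
      rintro rfl
      have h1 : q.1 + q.2 ≤ q'.1 + q'.2 := hmax _ hq.1
      apply hq.2
      have h2 : q'.1 ≤ q.1 := hq'.1
      have h3 : q'.2 ≤ q.2 := hq'.2
      exact Prod.ext (by omega) (by omega)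
    · change (μ.cells.erase p).card + 1 = μ.cells.card
      exact Finset.card_erase_add_one hp
    · intro q
      change q ∈ μ.cells.erase p ↔ q ∈ μ.cells ∧ q ≠ p
      rw [Finset.mem_erase, and_comm]

open Classical in
theorem total_update {l : Bool × Bool → YoungDiagram} {c : Bool × Bool} {μ : YoungDiagram} :
    total (Function.update l c μ) + (l c).card = total l + μ.card := by
  unfold total
  rw [← Finset.add_sum_erase Finset.univ (fun c => (l c).card) (Finset.mem_univ c),
    ← Finset.add_sum_erase Finset.univ (fun d => (Function.update l c μ d).card)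
      (Finset.mem_univ c)]
  have h1 : ∑ x ∈ Finset.univ.erase c, (Function.update l c μ x).card =
      ∑ x ∈ Finset.univ.erase c, (l x).card := by
    refine Finset.sum_congr rfl fun x hx => ?_
    rw [Function.update_of_ne (Finset.ne_of_mem_erase hx)]
  rw [h1, Function.update_self]
  ring

theorem total_reflX (l : Bool × Bool → YoungDiagram) :
    total (fun c => l (!c.1, c.2)) = total l := by
  unfold total
  simp only [Fintype.sum_prod_type, Fintype.sum_bool, Bool.not_true, Bool.not_false]
  ring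

theorem total_reflY (l : Bool × Bool → YoungDiagram) :
    total (fun c => l (c.1, !c.2)) = total l := by
  unfold total
  simp only [Fintype.sum_prod_type, Fintype.sum_bool, Bool.not_true, Bool.not_false]
  ring

/-- One step at the corner `(0,0)`. -/
theorem step_corner (hm : 1 ≤ m) {l l' : Bool × Bool → YoungDiagram} {p : ℕ × ℕ}
    (hp : p ∈ l (false, false)) (h1 : (p.1 + 1, p.2) ∉ l (false, false))
    (h2 : (p.1, p.2 + 1) ∉ l (false, false)) (hl : ∀ c, c ≠ (false, false) → l' c = l c)
    (hl0 : ∀ q, q ∈ l' (false, false) ↔ q ∈ l (false, false) ∧ q ≠ p)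
    (ht : total l' ≤ total l) (ha : 2 * total l + 1 ≤ a) (hb : 2 * total l + 1 ≤ b)
    (h : IsPolygon m (cut a b l')) : IsPolygon m (cut a b l) := by
  obtain ⟨v, hv⟩ := h
  have hc := coord_lt _ hp
  have hc' := card_le_total l (false, false)
  have key : ∀ i j : ℕ, i ≤ p.1 + 1 → j ≤ p.2 + 1 →
      (((i : ℤ), (j : ℤ)) ∈ cut a b l' ↔ (i, j) ∉ l' (false, false)) := by
    intro i j hi hj
    exact mem_cut_small (by omega) (by omega)
  have hlow : ∀ q q' : ℕ × ℕ, q ≤ q' → q' ∈ l (false, false) → q ∈ l (false, false) :=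
    fun q q' hq hq' => (l (false, false)).isLowerSet hq hq'
  refine flip hm hv (x := p.1) (y := p.2) ?_ ?_ ?_ ?_ ?_ ?_ ?_ ?_
  · rw [key _ _ (by omega) (by omega), hl0]
    simp
  · rcases Nat.eq_zero_or_pos p.1 with h3 | h3
    · exact not_mem_cut_left (Or.inl (by omega))
    · have e : ((p.1 : ℤ) - 1) = ((p.1 - 1 : ℕ) : ℤ) := by omega
      rw [e, key _ _ (by omega) (by omega), hl0, not_not]
      refine ⟨hlow _ p ⟨by simp only; omega, le_rfl⟩ hp, ?_⟩
      intro h4
      have := congrArg Prod.fst h4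
      simp only at this
      omega
  · rcases Nat.eq_zero_or_pos p.2 with h3 | h3
    · exact not_mem_cut_left (Or.inr (by omega))
    · have e : ((p.2 : ℤ) - 1) = ((p.2 - 1 : ℕ) : ℤ) := by omega
      rw [e, key _ _ (by omega) (by omega), hl0, not_not]
      refine ⟨hlow _ p ⟨le_rfl, by simp only; omega⟩ hp, ?_⟩
      intro h4
      have := congrArg Prod.snd h4
      simp only at this
      omega
  · rcases Nat.eq_zero_or_pos p.1 with h3 | h3
    · exact not_mem_cut_left (Or.inl (by omega))
    · rcases Nat.eq_zero_or_pos p.2 with h3' | h3'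
      · exact not_mem_cut_left (Or.inr (by omega))
      · have e : ((p.1 : ℤ) - 1) = ((p.1 - 1 : ℕ) : ℤ) := by omega
        have e' : ((p.2 : ℤ) - 1) = ((p.2 - 1 : ℕ) : ℤ) := by omega
        rw [e, e', key _ _ (by omega) (by omega), hl0, not_not]
        refine ⟨hlow _ p ⟨by simp only; omega, by simp only; omega⟩ hp, ?_⟩
        intro h4
        have := congrArg Prod.fst h4
        simp only at this
        omega
  · have e : ((p.1 : ℤ) + 1) = ((p.1 + 1 : ℕ) : ℤ) := by push_cast; ring
    rw [e, key _ _ (by omega) (by omega), hl0]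
    tauto
  · have e : ((p.2 : ℤ) + 1) = ((p.2 + 1 : ℕ) : ℤ) := by push_cast; ring
    rw [e, key _ _ (by omega) (by omega), hl0]
    tauto
  · have e : ((p.1 : ℤ) + 1) = ((p.1 + 1 : ℕ) : ℤ) := by push_cast; ring
    have e' : ((p.2 : ℤ) + 1) = ((p.2 + 1 : ℕ) : ℤ) := by push_cast; ring
    rw [e, e', key _ _ (by omega) (by omega), hl0]
    rintro ⟨h3, -⟩
    exact h1 (hlow (p.1 + 1, p.2) (p.1 + 1, p.2 + 1) ⟨le_rfl, by simp only; omega⟩ h3)
  · intro q
    rw [mem_cut, mem_cut]
    constructor
    · rintro ⟨h3, h4⟩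
      refine ⟨⟨h3, ?_⟩, ?_⟩
      · rintro ⟨c, r, hr, he⟩
        apply h4
        refine ⟨c, r, ?_, he⟩
        by_cases hcc : c = (false, false)
        · subst hcc
          exact ((hl0 r).1 hr).1
        · rw [← hl c hcc]; exact hr
      · rintro rfl
        exact h4 ⟨(false, false), p, hp, rfl⟩
    · rintro ⟨⟨h3, h4⟩, h5⟩
      refine ⟨h3, ?_⟩
      rintro ⟨c, r, hr, he⟩
      apply h4
      refine ⟨c, r, ?_, he⟩
      by_cases hcc : c = (false, false)
      · subst hcc
        rw [hl0]
        refine ⟨hr, ?_⟩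
        rintro rfl
        exact h5 he.symm
      · rw [hl c hcc]; exact hr

open Classical in
/-- The step at the corner `(0,0)`, with an induction hypothesis for smaller diagrams. -/
theorem step_ff (hm : 1 ≤ m) {l : Bool × Bool → YoungDiagram} (hc : (l (false, false)).card ≠ 0)
    (ha : 2 * total l + 1 ≤ a) (hb : 2 * total l + 1 ≤ b)
    (ih : ∀ l' : Bool × Bool → YoungDiagram, total l' + 1 = total l → IsPolygon m (cut a b l')) :
    IsPolygon m (cut a b l) := by
  obtain ⟨p, hp, h1, h2, μ', hμ, hμ'⟩ := exists_maximal _ hc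
  have ht := total_update (l := l) (c := (false, false)) (μ := μ')
  refine step_corner hm hp h1 h2 (l' := Function.update l (false, false) μ') ?_ ?_ ?_ ha hb
    (ih _ (by omega))
  · intro c hcc
    exact Function.update_of_ne hcc _ _
  · intro q
    rw [Function.update_self]
    exact hμ' q
  · omega

theorem cut_isPolygon (ha : 1 ≤ a) (hb : 1 ≤ b) (n : ℕ) :
    ∀ l : Bool × Bool → YoungDiagram, total l = n → 2 * n + 1 ≤ a → 2 * n + 1 ≤ b →
      IsPolygon (a + b) (cut a b l) := by
  induction n with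
  | zero =>
    intro l hl _ _
    refine ⟨fun k => rectPt a b k.val, ?_⟩
    have : cut a b l = box a b := by
      ext q
      rw [mem_cut]
      constructor
      · exact fun h => h.1
      · intro h
        refine ⟨h, ?_⟩
        rintro ⟨c, p, hp, -⟩
        have h1 := coord_lt _ hp
        have h2 := card_le_total l c
        omega
    rw [this]
    exact rect_encloses ha hb
  | succ n ih =>
    intro l hl ha' hb'
    have hm : 1 ≤ a + b := by omega
    -- a nonempty diagram
    have hc : ∃ c, (l c).card ≠ 0 := by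
      by_contra hcon
      push Not at hcon
      have : total l = 0 := Finset.sum_eq_zero fun c _ => hcon c
      omega
    have ih' : ∀ l' : Bool × Bool → YoungDiagram, total l' + 1 = n + 1 →
        IsPolygon (a + b) (cut a b l') := fun l' h' => ih l' (by omega) (by omega) (by omega)
    have ff : ∀ l : Bool × Bool → YoungDiagram, total l = n + 1 →
        (l (false, false)).card ≠ 0 → IsPolygon (a + b) (cut a b l) := by
      intro l hl h0
      exact step_ff hm h0 (by omega) (by omega) (fun l' h' => ih' l' (by omega))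
    have tf : ∀ l : Bool × Bool → YoungDiagram, total l = n + 1 →
        (l (true, false)).card ≠ 0 → IsPolygon (a + b) (cut a b l) := by
      intro l hl h0
      exact polygon_reflX (ff _ (by rw [total_reflX]; exact hl) h0)
    obtain ⟨⟨σ, τ⟩, hc⟩ := hc
    cases σ <;> cases τ
    · exact ff l hl hc
    · exact polygon_reflY (ff _ (by rw [total_reflY]; exact hl) hc)
    · exact tf l hl hc
    · exact polygon_reflY (tf _ (by rw [total_reflY]; exact hl) hc)

theorem normal_cut {l : Bool × Bool → YoungDiagram} (ha : 2 * total l + 1 ≤ a)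
    (hb : 2 * total l + 1 ≤ b) : Normal (cut a b l) := by
  refine ⟨?_, ?_, ?_⟩
  · intro c hc
    have := (mem_box.1 (mem_cut.1 hc).1)
    exact ⟨this.1.1, this.2.1⟩
  · refine ⟨((0 : ℕ), (total l : ℕ)), ?_, rfl⟩
    rw [mem_cut_small (by omega) (by omega)]
    intro h
    have h1 := coord_lt _ h
    have h2 := card_le_total l (false, false)
    simp only at h1
    omega
  · refine ⟨((total l : ℕ), (0 : ℕ)), ?_, rfl⟩
    rw [mem_cut_small (by omega) (by omega)]
    intro h
    have h1 := coord_lt _ h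
    have h2 := card_le_total l (false, false)
    simp only at h1
    omega

theorem cut_mem_polygons {l : Bool × Bool → YoungDiagram} (ha : 2 * total l + 1 ≤ a)
    (hb : 2 * total l + 1 ≤ b) : cut a b l ∈ polygons (a + b) :=
  ⟨cut_isPolygon (by omega) (by omega) _ l rfl ha hb, normal_cut ha hb⟩

/-- The rectangle and the diagrams are determined by the polygon. -/
theorem cut_inj {a' b' : ℕ} {l l' : Bool × Bool → YoungDiagram} (ha : 2 * total l + 1 ≤ a)
    (hb : 2 * total l + 1 ≤ b) (ha' : 2 * total l' + 1 ≤ a') (hb' : 2 * total l' + 1 ≤ b')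
    (haa : 2 * total l' + 1 ≤ a) (hbb : 2 * total l' + 1 ≤ b)
    (h : cut a b l = cut a' b' l') : a = a' ∧ b = b' ∧ l = l' := by
  have key : ∀ {a b a' b' : ℕ} {l l' : Bool × Bool → YoungDiagram}, 2 * total l + 1 ≤ a →
      2 * total l + 1 ≤ b → cut a b l = cut a' b' l' → a ≤ a' ∧ b ≤ b' := by
    intro a b a' b' l l' ha hb h
    have g1 : (((a : ℤ) - 1), ((total l : ℕ) : ℤ)) ∈ cut a b l := by
      rw [mem_cut_reflX]
      have e : (((a : ℤ) - 1 - ((a : ℤ) - 1)), ((total l : ℕ) : ℤ)) =
          (((0 : ℕ) : ℤ), ((total l : ℕ) : ℤ)) := by push_cast; ring_nf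
      simp only [e]
      rw [mem_cut_small (by rw [total_reflX]; omega) (by rw [total_reflX]; omega)]
      intro h
      have h1 := coord_lt _ h
      have h2 := card_le_total l (!false, false)
      simp only at h1
      omega
    have g2 : (((total l : ℕ) : ℤ), ((b : ℤ) - 1)) ∈ cut a b l := by
      rw [mem_cut_reflY]
      have e : (((total l : ℕ) : ℤ), ((b : ℤ) - 1 - ((b : ℤ) - 1))) =
          (((total l : ℕ) : ℤ), ((0 : ℕ) : ℤ)) := by push_cast; ring_nf
      simp only [e]
      rw [mem_cut_small (by rw [total_reflY]; omega) (by rw [total_reflY]; omega)]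
      intro h
      have h1 := coord_lt _ h
      have h2 := card_le_total l (false, !false)
      simp only at h1
      omega
    rw [h, mem_cut, mem_box] at g1 g2
    simp only at g1 g2
    omega
  have k1 := key ha hb h
  have k2 := key ha' hb' h.symm
  have e1 : a = a' := by omega
  have e2 : b = b' := by omega
  subst e1; subst e2
  refine ⟨rfl, rfl, ?_⟩
  have half : ∀ {l l' : Bool × Bool → YoungDiagram}, 2 * total l + 1 ≤ a → 2 * total l + 1 ≤ b →
      2 * total l' + 1 ≤ a → 2 * total l' + 1 ≤ b → cut a b l = cut a b l' →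
      ∀ c p, p ∈ l c → p ∈ l' c := by
    intro l l' ha hb ha' hb' h c p hp
    have g1 : emb a b c p ∉ cut a b l := by
      rw [mem_cut]
      rintro ⟨-, h1⟩
      exact h1 ⟨c, p, hp, rfl⟩
    rw [h, mem_cut] at g1
    have g2 : emb a b c p ∈ box a b := by
      have h1 := coord_lt _ hp
      have h2 := card_le_total l c
      rw [mem_box, emb]
      exact ⟨X_mem (by omega), X_mem (by omega)⟩
    have g3 : ∃ c' p', p' ∈ l' c' ∧ emb a b c' p' = emb a b c p := by
      by_contra hcon
      exact g1 ⟨g2, hcon⟩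
    obtain ⟨c', p', hp', he⟩ := g3
    obtain ⟨rfl, rfl⟩ := emb_inj ha' hb' ha hb hp' hp he
    exact hp'
  funext c
  ext p
  exact ⟨fun hp => half ha hb haa hbb h c p hp, fun hp => half haa hbb ha hb h.symm c p hp⟩

end Pool.Agent.Q291.SAP
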