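import Pool.Agent.Q291.SAP.E

/-!
# Summability of the generating function of quadruples of Young diagrams
-/

set_option autoImplicit false

open Finset Filter Topology

namespace Pool.Agent.Q291.SAP

/-- Number of columns of each height. -/
def dif (μ : YoungDiagram) (j : ℕ) : ℕ := μ.colLen j - μ.colLen (j + 1)

theorem colLen_anti' (μ : YoungDiagram) (j : ℕ) : μ.colLen (j + 1) ≤ μ.colLen j :=
  μ.colLen_anti _ _ (Nat.le_succ j)

theorem sum_dif (μ : YoungDiagram) (N : ℕ) :
    ∑ j ∈ range N, (j + 1) * dif μ j + N * μ.colLen N = ∑ j ∈ range N, μ.colLen j := by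
  induction N with
  | zero => simp
  | succ N ih =>
    rw [sum_range_succ, sum_range_succ, ← ih]
    have h := colLen_anti' μ N
    obtain ⟨d, hd⟩ : ∃ d, μ.colLen N = μ.colLen (N + 1) + d := ⟨_, (Nat.add_sub_cancel' h).symm⟩
    have : dif μ N = d := by unfold dif; omega
    rw [this, hd]
    ring

theorem colLen_eq (μ : YoungDiagram) (N : ℕ) (h : μ.colLen N = 0) (j : ℕ) (hj : j ≤ N) :
    μ.colLen (N - j) = ∑ i ∈ range j, dif μ (N - 1 - i) := by
  induction j with
  | zero => simpa using h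
  | succ j ih =>
    rw [sum_range_succ, ← ih (by omega)]
    have h1 := colLen_anti' μ (N - (j + 1))
    have h2 : N - (j + 1) + 1 = N - j := by omega
    have h3 : N - 1 - j = N - (j + 1) := by omega
    rw [h2] at h1
    rw [h3]
    unfold dif
    rw [h2]
    omega

theorem eq_of_dif {μ ν : YoungDiagram} {N : ℕ} (h1 : ∀ j, N ≤ j → μ.colLen j = 0)
    (h2 : ∀ j, N ≤ j → ν.colLen j = 0) (h : ∀ j < N, dif μ j = dif ν j) : μ = ν := by
  have h3 : ∀ j, μ.colLen j = ν.colLen j := by
    intro j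
    rcases Nat.lt_or_ge j N with hj | hj
    · have e : j = N - (N - j) := by omega
      rw [e, colLen_eq μ N (h1 N le_rfl) _ (by omega), colLen_eq ν N (h2 N le_rfl) _ (by omega)]
      refine sum_congr rfl fun i hi => ?_
      rw [mem_range] at hi
      exact h _ (by omega)
    · rw [h1 j hj, h2 j hj]
  ext ⟨i, j⟩
  rw [YoungDiagram.mem_cells, YoungDiagram.mem_cells, YoungDiagram.mem_iff_lt_colLen,
    YoungDiagram.mem_iff_lt_colLen, h3]

theorem colLen_zero_of_le (μ : YoungDiagram) {N j : ℕ} (hN : μ.card ≤ N) (hj : N ≤ j) :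
    μ.colLen j = 0 := by
  by_contra hne
  have h1 : (0, j) ∈ μ := by
    rw [YoungDiagram.mem_iff_lt_colLen]
    omega
  have := coord_lt μ h1
  simp only at this
  omega

theorem card_eq_sum (μ : YoungDiagram) {N : ℕ} (hN : μ.card ≤ N) :
    μ.card = ∑ j ∈ range N, μ.colLen j := by
  classical
  change μ.cells.card = _
  rw [card_eq_sum_card_fiberwise (f := Prod.snd) (t := range N)]
  · refine sum_congr rfl fun j _ => ?_
    have : μ.cells.filter (fun p => p.2 = j) = (range (μ.colLen j)).image (fun i => (i, j)) := by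
      ext ⟨i, j'⟩
      rw [mem_filter, YoungDiagram.mem_cells, mem_image]
      constructor
      · rintro ⟨h1, h2⟩
        simp only at h2
        subst h2
        rw [YoungDiagram.mem_iff_lt_colLen] at h1
        exact ⟨i, mem_range.2 h1, rfl⟩
      · rintro ⟨i', hi, h2⟩
        rw [Prod.mk.injEq] at h2
        obtain ⟨rfl, rfl⟩ := h2
        rw [YoungDiagram.mem_iff_lt_colLen]
        exact ⟨mem_range.1 hi, rfl⟩
    rw [this, card_image_of_injective, card_range]
    intro a b hab
    simpa using hab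
  · intro p hp
    have := coord_lt μ ((YoungDiagram.mem_cells _).1 (mem_coe.1 hp))
    rw [mem_coe, mem_range]
    omega

theorem card_eq_dif (μ : YoungDiagram) {N : ℕ} (hN : μ.card ≤ N) :
    μ.card = ∑ j ∈ range N, (j + 1) * dif μ j := by
  have h1 := sum_dif μ N
  rw [colLen_zero_of_le μ hN le_rfl, mul_zero, add_zero] at h1
  rw [h1]
  exact card_eq_sum μ hN

theorem dif_le (μ : YoungDiagram) (j : ℕ) : dif μ j ≤ μ.card := by
  rcases Nat.lt_or_ge j μ.card with h | h
  · have h1 := card_eq_dif μ le_rfl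
    have h2 : (j + 1) * dif μ j ≤ ∑ j ∈ range μ.card, (j + 1) * dif μ j :=
      single_le_sum (f := fun j => (j + 1) * dif μ j) (fun _ _ => Nat.zero_le _)
        (mem_range.2 h)
    have h3 : dif μ j ≤ (j + 1) * dif μ j := Nat.le_mul_of_pos_left _ (by omega)
    omega
  · unfold dif
    rw [colLen_zero_of_le μ le_rfl h]
    omega

theorem inv_one_sub_le {y : ℝ} (h0 : 0 ≤ y) (h1 : y < 1) :
    (1 - y)⁻¹ ≤ Real.exp (y / (1 - y)) := by
  have h2 : 0 < 1 - y := by linarith
  have h3 : (1 - y)⁻¹ = y / (1 - y) + 1 := by field_simp; ring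
  rw [h3]
  exact Real.add_one_le_exp _

/-- `∑ x^|μ|` over finite sets of Young diagrams is bounded. -/
theorem sum_yd_le {x : ℝ} (h0 : 0 < x) (h1 : x < 1) (F : Finset YoungDiagram) :
    ∑ μ ∈ F, x ^ μ.card ≤ Real.exp (x / (1 - x) ^ 2) := by
  classical
  obtain ⟨N, hN⟩ : ∃ N, ∀ μ ∈ F, μ.card ≤ N :=
    ⟨F.sup YoungDiagram.card, fun μ hμ => le_sup (f := YoungDiagram.card) hμ⟩
  have h1x : 0 < 1 - x := by linarith
  have e1 : ∀ μ ∈ F, x ^ μ.card = ∏ j : Fin N, (x ^ ((j : ℕ) + 1)) ^ dif μ j := by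
    intro μ hμ
    rw [card_eq_dif μ (hN μ hμ), ← prod_pow_eq_pow_sum, ← prod_range
      (fun j => (x ^ (j + 1)) ^ dif μ j)]
    refine prod_congr rfl fun j _ => ?_
    rw [pow_mul]
  rw [sum_congr rfl e1]
  have e2 : ∑ μ ∈ F, ∏ j : Fin N, (x ^ ((j : ℕ) + 1)) ^ dif μ j ≤
      ∑ d ∈ Fintype.piFinset (fun _ : Fin N => range (N + 1)),
        ∏ j : Fin N, (x ^ ((j : ℕ) + 1)) ^ d j := by
    have hinj : Set.InjOn (fun μ => (fun j : Fin N => dif μ j)) (F : Set YoungDiagram) := by
      intro μ hμ ν hν hh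
      refine eq_of_dif (N := N) (fun j hj => colLen_zero_of_le μ (hN μ hμ) hj)
        (fun j hj => colLen_zero_of_le ν (hN ν hν) hj) ?_
      intro j hj
      exact congrFun hh ⟨j, hj⟩
    rw [← sum_image (s := F) (g := fun μ => (fun j : Fin N => dif μ j))
      (f := fun d => ∏ j : Fin N, (x ^ ((j : ℕ) + 1)) ^ d j) hinj]
    refine sum_le_sum_of_subset_of_nonneg ?_ ?_
    · intro d hd
      rw [mem_image] at hd
      obtain ⟨μ, hμ, rfl⟩ := hd
      rw [Fintype.mem_piFinset]
      intro j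
      rw [mem_range]
      have := dif_le μ j
      have := hN μ hμ
      omega
    · intro d _ _
      exact prod_nonneg fun j _ => by positivity
  refine e2.trans ?_
  rw [← prod_univ_sum (fun _ : Fin N => range (N + 1))
    (fun j i => (x ^ ((j : ℕ) + 1)) ^ i)]
  have e3 : ∀ j : Fin N, ∑ i ∈ range (N + 1), (x ^ ((j : ℕ) + 1)) ^ i ≤
      Real.exp (x ^ ((j : ℕ) + 1) / (1 - x)) := by
    intro j
    have hy0 : 0 ≤ x ^ ((j : ℕ) + 1) := by positivity
    have hyx : x ^ ((j : ℕ) + 1) ≤ x := by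
      calc x ^ ((j : ℕ) + 1) ≤ x ^ 1 := pow_le_pow_of_le_one h0.le h1.le (by omega)
        _ = x := pow_one x
    have hy1 : x ^ ((j : ℕ) + 1) < 1 := by linarith
    calc ∑ i ∈ range (N + 1), (x ^ ((j : ℕ) + 1)) ^ i ≤ (1 - x ^ ((j : ℕ) + 1))⁻¹ := by
          rw [← tsum_geometric_of_lt_one hy0 hy1]
          exact (summable_geometric_of_lt_one hy0 hy1).sum_le_tsum _
            (fun i _ => by positivity)
      _ ≤ Real.exp (x ^ ((j : ℕ) + 1) / (1 - x ^ ((j : ℕ) + 1))) := inv_one_sub_le hy0 hy1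
      _ ≤ _ := by
          apply Real.exp_le_exp.2
          exact div_le_div_of_nonneg_left hy0 h1x (by linarith)
  calc ∏ j : Fin N, ∑ i ∈ range (N + 1), (x ^ ((j : ℕ) + 1)) ^ i
      ≤ ∏ j : Fin N, Real.exp (x ^ ((j : ℕ) + 1) / (1 - x)) :=
        prod_le_prod (fun j _ => sum_nonneg fun i _ => by positivity) (fun j _ => e3 j)
    _ = Real.exp (∑ j : Fin N, x ^ ((j : ℕ) + 1) / (1 - x)) := (Real.exp_sum _ _).symm
    _ ≤ Real.exp (x / (1 - x) ^ 2) := by
        apply Real.exp_le_exp.2
        rw [Fin.sum_univ_eq_sum_range (fun j => x ^ (j + 1) / (1 - x)) N]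
        calc ∑ j ∈ range N, x ^ (j + 1) / (1 - x)
            = (∑ j ∈ range N, x ^ j) * (x / (1 - x)) := by
              rw [sum_mul]
              refine sum_congr rfl fun j _ => ?_
              rw [pow_succ]; ring
          _ ≤ (1 - x)⁻¹ * (x / (1 - x)) := by
              refine mul_le_mul_of_nonneg_right ?_ (by positivity)
              rw [← tsum_geometric_of_lt_one h0.le h1]
              exact (summable_geometric_of_lt_one h0.le h1).sum_le_tsum _
                (fun i _ => by positivity)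
          _ = x / (1 - x) ^ 2 := by field_simp

/-- Quadruples of Young diagrams. -/
theorem summable_quad {x : ℝ} (h0 : 0 < x) (h1 : x < 1) :
    Summable (fun l : Bool × Bool → YoungDiagram => x ^ total l) := by
  classical
  refine summable_of_sum_le (c := ∏ _c : Bool × Bool, Real.exp (x / (1 - x) ^ 2))
    (fun l => by positivity) ?_
  intro F
  calc ∑ l ∈ F, x ^ total l = ∑ l ∈ F, ∏ c, x ^ (l c).card := by
        refine sum_congr rfl fun l _ => ?_
        rw [total, prod_pow_eq_pow_sum]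
    _ ≤ ∑ l ∈ Fintype.piFinset (fun c => F.image (fun l => l c)), ∏ c, x ^ (l c).card := by
        refine sum_le_sum_of_subset_of_nonneg ?_ ?_
        · intro l hl
          rw [Fintype.mem_piFinset]
          intro c
          exact mem_image_of_mem _ hl
        · intro l _ _
          exact prod_nonneg fun c _ => by positivity
    _ = ∏ c, ∑ μ ∈ F.image (fun l => l c), x ^ μ.card := by
        rw [prod_univ_sum]
    _ ≤ _ := by
        refine prod_le_prod (fun c _ => sum_nonneg fun i _ => by positivity) ?_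
        intro c _
        exact sum_yd_le h0 h1 _

theorem toNat_ge (e : ℕ) (he : e ≤ 1) (t : ℤ) : t.natAbs ≤ (t ^ 2 + e * t).toNat + 1 := by
  have h3 : (t.natAbs : ℤ) ≤ t ^ 2 + e * t + 1 := by
    have e1 : (e : ℤ) = 0 ∨ (e : ℤ) = 1 := by omega
    rcases abs_cases t with ⟨h4, h5⟩ | ⟨h4, h5⟩
    · rw [Int.natCast_natAbs, h4]
      rcases e1 with e1 | e1 <;> rw [e1] <;> nlinarith
    · rw [Int.natCast_natAbs, h4]
      rcases e1 with e1 | e1 <;> rw [e1] <;> nlinarith [sq_nonneg (t + 1)]
  omega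

theorem summable_int {x : ℝ} (h0 : 0 < x) (h1 : x < 1) {e : ℕ} (he : e ≤ 1) :
    Summable (fun t : ℤ => x ^ (t ^ 2 + e * t).toNat) := by
  have h2 : Summable (fun t : ℤ => x ^ t.natAbs) := by
    apply Summable.of_nat_of_neg
    · simpa using summable_geometric_of_lt_one h0.le h1
    · simpa using summable_geometric_of_lt_one h0.le h1
  refine Summable.of_nonneg_of_le (fun t => by positivity) ?_ (h2.mul_right x⁻¹)
  intro t
  have h3 := toNat_ge e he t
  have h4 : x ^ ((t ^ 2 + e * t).toNat + 1) ≤ x ^ t.natAbs :=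
    pow_le_pow_of_le_one h0.le h1.le h3
  rw [pow_succ] at h4
  rw [← div_eq_mul_inv, le_div_iff₀ h0]
  exact h4

/-- The deficit of a rectangle of half-perimeter `2s + e` without four Young diagrams. -/
def defect (e : ℕ) (y : ℤ × (Bool × Bool → YoungDiagram)) : ℕ :=
  (y.1 ^ 2 + e * y.1).toNat + total y.2

theorem summable_defect {x : ℝ} (h0 : 0 < x) (h1 : x < 1) {e : ℕ} (he : e ≤ 1) :
    Summable (fun y : ℤ × (Bool × Bool → YoungDiagram) => x ^ defect e y) := by
  have h := (summable_int h0 h1 he).mul_of_nonneg (summable_quad h0 h1)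
    (fun t => by positivity) (fun t => by positivity)
  refine h.congr fun y => ?_
  rw [defect, pow_add]

theorem nonneg_form {e : ℕ} (he : e ≤ 1) (t : ℤ) : 0 ≤ t ^ 2 + e * t := by
  have e1 : (e : ℤ) = 0 ∨ (e : ℤ) = 1 := by omega
  rcases e1 with e1 | e1 <;> rw [e1]
  · nlinarith
  · rcases lt_or_ge t 0 with h | h <;> nlinarith

/-- The number of pairs of an integer `t` and a quadruple of Young diagrams with
`t^2 + e t + |l| = k`. -/
noncomputable def num (e k : ℕ) : ℕ :=
  Nat.card {y : ℤ × (Bool × Bool → YoungDiagram) // y.1 ^ 2 + e * y.1 + total y.2 = k}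

theorem defect_iff {e : ℕ} (he : e ≤ 1) (k : ℕ) (y : ℤ × (Bool × Bool → YoungDiagram)) :
    defect e y = k ↔ y.1 ^ 2 + e * y.1 + total y.2 = (k : ℤ) := by
  have := nonneg_form he y.1
  unfold defect
  omega

theorem yd_finite (k : ℕ) : Set.Finite {μ : YoungDiagram | μ.card ≤ k} := by
  classical
  apply Set.Finite.of_finite_image (f := fun μ => μ.cells)
  · apply Set.Finite.subset (Finset.finite_toSet ((range k ×ˢ range k).powerset))
    rintro _ ⟨μ, hμ, rfl⟩
    rw [mem_coe, mem_powerset]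
    intro p hp
    have h1 := coord_lt μ ((YoungDiagram.mem_cells _).1 hp)
    have h2 : μ.card ≤ k := hμ
    rw [mem_product, mem_range, mem_range]
    omega
  · intro μ _ ν _ h
    exact YoungDiagram.ext h

theorem finite_defect {e : ℕ} (he : e ≤ 1) (k : ℕ) :
    Finite {y : ℤ × (Bool × Bool → YoungDiagram) // y.1 ^ 2 + e * y.1 + total y.2 = k} := by
  have h1 : Set.Finite {l : Bool × Bool → YoungDiagram | ∀ c, (l c).card ≤ k} := by
    have := Set.Finite.pi' (fun _ : Bool × Bool => yd_finite k)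
    simpa using this
  have h2 : Set.Finite ((Set.Icc (-((k : ℤ) + 1)) (k + 1)) ×ˢ
      {l : Bool × Bool → YoungDiagram | ∀ c, (l c).card ≤ k}) :=
    (Set.finite_Icc _ _).prod h1
  refine Set.Finite.subset h2 ?_
  rintro ⟨t, l⟩ h
  have h3 : defect e (t, l) = k := (defect_iff he k _).2 h
  have h4 := toNat_ge e he t
  unfold defect at h3
  simp only at h3
  refine ⟨?_, ?_⟩
  · simp only [Set.mem_Icc]
    omega
  · intro c
    have := card_le_total l c
    simp only
    omega

theorem summable_num {x : ℝ} (h0 : 0 < x) (h1 : x < 1) {e : ℕ} (he : e ≤ 1) :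
    Summable (fun k => (num e k : ℝ) * x ^ k) := by
  have h2 := summable_defect h0 h1 he
  have h3 := ((Equiv.sigmaFiberEquiv (defect e)).summable_iff.2 h2).sigma
  refine h3.congr fun k => ?_
  have h4 : ∀ c : {y // defect e y = k},
      ((fun y : ℤ × (Bool × Bool → YoungDiagram) => x ^ defect e y) ∘
        (Equiv.sigmaFiberEquiv (defect e))) ⟨k, c⟩ = x ^ k := by
    rintro ⟨c, hc⟩
    simp only [Function.comp_apply, Equiv.sigmaFiberEquiv, Equiv.coe_fn_mk, hc]
  rw [tsum_congr h4, tsum_const, nsmul_eq_mul]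
  congr 2
  unfold num
  apply Nat.card_congr
  exact Equiv.subtypeEquivRight fun y => defect_iff he k y

theorem num_zero_pos {e : ℕ} (he : e ≤ 1) : 1 ≤ num e 0 := by
  have := finite_defect he 0
  rw [num, Nat.one_le_iff_ne_zero]
  have hne : Nonempty {y : ℤ × (Bool × Bool → YoungDiagram) //
      y.1 ^ 2 + e * y.1 + total y.2 = ((0 : ℕ) : ℤ)} := by
    refine ⟨⟨(0, fun _ => ⊥), ?_⟩⟩
    simp [total]
  exact Nat.card_pos.ne'

end Pool.Agent.Q291.SAP
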