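import Pool.Agent.Q291.SAP.F

/-!
# The number of polygons of a given small deficit
-/

set_option autoImplicit false

open Finset Filter Topology

namespace Pool.Agent.Q291.SAP

/-- A polygon model: for each `m` a family `F m` of finite sets of squares of half-perimeter `m`
(up to translation). It consists of sets in `Wide m`, and contains the rectangles of
half-perimeter `m` without four Young diagrams at the corners, if the number of removed squares is
less than half of the sides. -/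
structure Model (F : ℕ → Set (Finset Pt)) : Prop where
  upper : ∀ m, 1 ≤ m → F m ⊆ Wide m
  lower : ∀ a b l, 2 * total l + 1 ≤ a → 2 * total l + 1 ≤ b → cut a b l ∈ F (a + b)

/-- Self-avoiding polygons are a model. -/
theorem model_polygons : Model polygons :=
  ⟨fun _ hm => polygons_sub_wide hm, fun _ _ _ ha hb => cut_mem_polygons ha hb⟩

variable {F : ℕ → Set (Finset Pt)}

/-- The number of members (up to translation) of half-perimeter `m` and area `n`. -/
noncomputable def count (F : ℕ → Set (Finset Pt)) (m n : ℕ) : ℕ :=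
  Set.ncard {S | S ∈ F m ∧ S.card = n}

theorem quarter {s e : ℕ} (he : e ≤ 1) : (2 * s + e) ^ 2 / 4 = s ^ 2 + e * s := by
  have h : e = 0 ∨ e = 1 := by omega
  rcases h with rfl | rfl
  · have : (2 * s + 0) ^ 2 = 4 * (s ^ 2) := by ring
    rw [this]; omega
  · have : (2 * s + 1) ^ 2 = 4 * (s ^ 2 + 1 * s) + 1 := by ring
    rw [this]; omega

theorem model_finite (hF : Model F) {m : ℕ} (hm : 1 ≤ m) : (F m).Finite :=
  (wide_finite m).subset (hF.upper m hm)

theorem set_finite (hF : Model F) {m : ℕ} (hm : 1 ≤ m) (n : ℕ) :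
    {S | S ∈ F m ∧ S.card = n}.Finite :=
  (model_finite hF hm).subset fun _ h => h.1

theorem structure_small {s e k : ℕ} (he : e ≤ 1) (h8 : 8 * k ≤ 2 * s + e) (h3 : 3 ≤ 2 * s + e)
    (hk : k ≤ s ^ 2 + e * s) {S : Finset Pt} (hS : S ∈ Wide (2 * s + e))
    (hc : S.card = s ^ 2 + e * s - k) :
    ∃ y : ℤ × (Bool × Bool → YoungDiagram), y.1 ^ 2 + e * y.1 + total y.2 = (k : ℤ) ∧
      S = cut ((s : ℤ) + e + y.1).toNat ((s : ℤ) - y.1).toNat y.2 := by
  obtain ⟨a, b, hs⟩ := exists_shape hS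
  have hM := quarter (s := s) he
  have hex := hs.excess_mul (k := k) (by rw [hM]; omega)
  have hadd := hs.add_le
  have harea := hs.area
  have hJ : 2 * s + e - (a + b) = 0 := by
    by_contra hne
    have : 1 ≤ 2 * s + e - (a + b) := by omega
    have h5 : 2 * s + e ≤ (2 * s + e - (a + b)) * (2 * s + e) := Nat.le_mul_of_pos_left _ this
    omega
  have hab : a + b = 2 * s + e := by omega
  have key : ∀ a b : ℕ, a + b = 2 * s + e → S.card ≤ a * b → k < a := by
    intro a b hab hle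
    by_contra hcon
    rw [not_lt] at hcon
    have e1 : 4 * (s ^ 2 + e * s) + 1 ≥ (a + b) ^ 2 := by
      have h : e = 0 ∨ e = 1 := by omega
      rw [hab]
      rcases h with rfl | rfl
      · ring_nf; omega
      · ring_nf; omega
    obtain ⟨D, hD⟩ : ∃ D, b = a + D := ⟨b - a, by omega⟩
    have e2 : (a + b) ^ 2 = 4 * (a * b) + D ^ 2 := by rw [hD]; ring
    have e3 : D ^ 2 ≤ 4 * k + 1 := by omega
    have e4 : 3 * (2 * s + e) ≤ 4 * D := by omega
    have e5 : 9 ≤ 4 * D := by omega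
    nlinarith
  have ha := key a b hab harea.1
  have hb := key b a (by omega) (by rw [mul_comm]; exact harea.1)
  have hab2 : a * b ≤ s ^ 2 + e * s := by rw [← hM]; exact harea.2
  obtain ⟨l, hl, ht⟩ := hs.exists_cut hab (by omega) (by omega)
  refine ⟨((a : ℤ) - s - e, l), ?_, ?_⟩
  · have e1 : (a : ℤ) * b = S.card + total l := by exact_mod_cast ht.symm
    have e2 : (S.card : ℤ) = s ^ 2 + e * s - k := by
      rw [hc]; push_cast [Nat.cast_sub hk]; ring
    have e3 : (b : ℤ) = 2 * s + e - a := by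
      have : (a : ℤ) + b = 2 * s + e := by exact_mod_cast hab
      linarith
    have e4 : (total l : ℤ) = a * (2 * s + e - a) - (s ^ 2 + e * s - k) := by
      rw [← e3, e1, e2]; ring
    simp only
    rw [e4]
    ring
  · simp only
    have e1 : ((s : ℤ) + e + ((a : ℤ) - s - e)).toNat = a := by
      have : (s : ℤ) + e + ((a : ℤ) - s - e) = a := by ring
      rw [this]; simp
    have e2 : ((s : ℤ) - ((a : ℤ) - s - e)).toNat = b := by
      have : (s : ℤ) - ((a : ℤ) - s - e) = b := by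
        have : (a : ℤ) + b = 2 * s + e := by exact_mod_cast hab
        linarith
      rw [this]; simp
    rw [e1, e2]
    exact hl

theorem count_le_num (hF : Model F) {s e k : ℕ} (he : e ≤ 1) (h8 : 8 * k ≤ 2 * s + e) (h3 : 3 ≤ 2 * s + e)
    (hk : k ≤ s ^ 2 + e * s) : count F (2 * s + e) (s ^ 2 + e * s - k) ≤ num e k := by
  have hfin := finite_defect he k
  rw [count, ← Nat.card_coe_set_eq, num]
  have h : ∀ S : {S | S ∈ F (2 * s + e) ∧ S.card = s ^ 2 + e * s - k},
      ∃ y : {y : ℤ × (Bool × Bool → YoungDiagram) // y.1 ^ 2 + e * y.1 + total y.2 = (k : ℤ)},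
        (S : Finset Pt) =
          cut ((s : ℤ) + e + y.1.1).toNat ((s : ℤ) - y.1.1).toNat y.1.2 := by
    rintro ⟨S, hS, hc⟩
    obtain ⟨y, hy, hy'⟩ := structure_small he h8 h3 hk (hF.upper _ (by omega) hS) hc
    exact ⟨⟨y, hy⟩, hy'⟩
  choose f hf using h
  refine Nat.card_le_card_of_injective f ?_
  intro S S' hSS
  apply Subtype.ext
  rw [hf S, hf S', hSS]

theorem num_le_count (hF : Model F) {s e k : ℕ} (he : e ≤ 1) (hs : 3 * k + 2 ≤ s) :
    num e k ≤ count F (2 * s + e) (s ^ 2 + e * s - k) := by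
  rw [count, ← Nat.card_coe_set_eq, num]
  have : Finite {S | S ∈ F (2 * s + e) ∧ S.card = s ^ 2 + e * s - k} :=
    (set_finite hF (by omega) _)
  have hy : ∀ y : {y : ℤ × (Bool × Bool → YoungDiagram) //
      y.1 ^ 2 + e * y.1 + total y.2 = (k : ℤ)},
      y.1.1.natAbs ≤ k + 1 ∧ total y.1.2 ≤ k := by
    rintro ⟨y, hy⟩
    have h1 := (defect_iff he k y).2 hy
    have h2 := toNat_ge e he y.1
    unfold defect at h1
    simp only
    omega
  refine Nat.card_le_card_of_injective (fun y => ⟨cut ((s : ℤ) + e + y.1.1).toNat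
    ((s : ℤ) - y.1.1).toNat y.1.2, ?_, ?_⟩) ?_
  · have h1 := hy y
    have h2 := hF.lower ((s : ℤ) + e + y.1.1).toNat ((s : ℤ) - y.1.1).toNat y.1.2
      (by omega) (by omega)
    have h3 : ((s : ℤ) + e + y.1.1).toNat + ((s : ℤ) - y.1.1).toNat = 2 * s + e := by omega
    rw [h3] at h2
    exact h2
  · have h1 := hy y
    have h2 := card_cut (l := y.1.2) (a := ((s : ℤ) + e + y.1.1).toNat)
      (b := ((s : ℤ) - y.1.1).toNat) (by omega) (by omega)
    have h3 := y.2
    have h4 : ((((s : ℤ) + e + y.1.1).toNat * ((s : ℤ) - y.1.1).toNat : ℕ) : ℤ) =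
        ((s : ℤ) + e + y.1.1) * ((s : ℤ) - y.1.1) := by
      rw [Nat.cast_mul, Int.toNat_of_nonneg (by omega), Int.toNat_of_nonneg (by omega)]
    have h5 : (((cut ((s : ℤ) + e + y.1.1).toNat ((s : ℤ) - y.1.1).toNat y.1.2).card : ℕ) : ℤ) +
        total y.1.2 = ((s : ℤ) + e + y.1.1) * ((s : ℤ) - y.1.1) := by
      rw [← h4, ← h2]; push_cast; ring
    have h6 : ((s : ℤ) + e + y.1.1) * ((s : ℤ) - y.1.1) =
        s ^ 2 + e * s - (y.1.1 ^ 2 + e * y.1.1) := by ring
    have h7 : (((cut ((s : ℤ) + e + y.1.1).toNat ((s : ℤ) - y.1.1).toNat y.1.2).card : ℕ) : ℤ) =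
        s ^ 2 + e * s - k := by
      rw [h6] at h5; linarith
    have h8 : k ≤ s ^ 2 + e * s := by
      have : k ≤ s ^ 2 := by nlinarith
      omega
    have h9 : ((s ^ 2 + e * s - k : ℕ) : ℤ) = s ^ 2 + e * s - k := by
      rw [Nat.cast_sub h8]; push_cast; ring
    rw [← h9] at h7
    exact_mod_cast h7
  · intro y y' hyy
    have h1 := hy y
    have h2 := hy y'
    have h3 := congrArg Subtype.val hyy
    simp only at h3
    obtain ⟨e1, e2, e3⟩ := cut_inj (by omega) (by omega) (by omega) (by omega) (by omega)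
      (by omega) h3
    apply Subtype.ext
    exact Prod.ext (by omega) e3

/-- No polygon has area greater than `m^2/4`. -/
theorem count_eq_zero (hF : Model F) {m n : ℕ} (hm : 1 ≤ m) (hn : m ^ 2 / 4 < n) :
    count F m n = 0 := by
  rw [count, Set.ncard_eq_zero (set_finite hF hm n), Set.eq_empty_iff_forall_notMem]
  rintro S ⟨hS, hc⟩
  obtain ⟨a, b, hs⟩ := exists_shape (hF.upper m hm hS)
  have := hs.area
  omega

/-- The bound used for deficits which are not small. -/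
noncomputable def W (k : ℕ) : ℕ := ((8 * k + 1) ^ 2 + 1) ^ (36 * Nat.sqrt k + 56)

theorem count_le_W (hF : Model F) {m k : ℕ} (hm : 3 ≤ m) (hk : k ≤ m ^ 2 / 4)
    (h8 : m < 8 * k) : count F m (m ^ 2 / 4 - k) ≤ W k := by
  have hfin := set_finite hF (m := m) (by omega) (m ^ 2 / 4 - k)
  rw [count, Set.ncard_eq_toFinset_card _ hfin]
  have h1 := card_deficit (m := m) (by omega) k hfin.toFinset (by
    intro S hS
    rw [Set.Finite.mem_toFinset] at hS
    exact ⟨hF.upper m (by omega) hS.1, by rw [hS.2]; omega⟩)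
  refine h1.trans ?_
  unfold W
  have h2 : (m + 1) ^ 2 + 1 ≤ (8 * k + 1) ^ 2 + 1 := by
    have : m + 1 ≤ 8 * k + 1 := by omega
    have := Nat.pow_le_pow_left this 2
    omega
  have h3 : 12 * ((4 * k + 1) / m) + 12 * Nat.sqrt k + 8 ≤ 36 * Nat.sqrt k + 56 := by
    have h4 : (4 * k + 1) / m < 2 * Nat.sqrt k + 5 := by
      rw [Nat.div_lt_iff_lt_mul (by omega)]
      have h5 := Nat.sqrt_le' k
      have h6 := Nat.lt_succ_sqrt' k
      have h7 : 4 * k ≤ m ^ 2 := by omega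
      set r := Nat.sqrt k with hr
      have h8 : 2 * r ≤ m := by
        by_contra hcon
        rw [not_le] at hcon
        have : m ^ 2 < (2 * r) ^ 2 := Nat.pow_lt_pow_left hcon (by norm_num)
        nlinarith
      rw [Nat.succ_eq_add_one] at h6
      have h9 : 4 * k + 1 < 4 * r ^ 2 + 8 * r + 5 := by nlinarith
      have h10 : (2 * r + 5) * (2 * r) ≤ (2 * r + 5) * m := Nat.mul_le_mul_left _ h8
      rcases Nat.eq_zero_or_pos r with h11 | h11
      · rw [h11]; rw [h11] at h9; omega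
      · have h12 : k ≤ r ^ 2 + 2 * r := by nlinarith
        nlinarith
    omega
  calc ((m + 1) ^ 2 + 1) ^ (12 * ((4 * k + 1) / m) + 12 * Nat.sqrt k + 8)
      ≤ ((m + 1) ^ 2 + 1) ^ (36 * Nat.sqrt k + 56) := Nat.pow_le_pow_right (by omega) h3
    _ ≤ ((8 * k + 1) ^ 2 + 1) ^ (36 * Nat.sqrt k + 56) := Nat.pow_le_pow_left h2 _

theorem lim_aux {y : ℝ} (hy0 : 0 < y) (hy1 : y < 1) (N : ℕ) :
    Tendsto (fun r : ℕ => (65 * ((r : ℝ) + 1) ^ 4) ^ N * y ^ r) atTop (𝓝 0) := by
  have h2 := tendsto_pow_const_mul_const_pow_of_abs_lt_one (4 * N) (r := y)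
    (by rw [abs_of_pos hy0]; exact hy1)
  have h3 := (h2.comp (tendsto_add_atTop_nat 1)).const_mul ((65 : ℝ) ^ N * y⁻¹)
  rw [mul_zero] at h3
  refine h3.congr fun r => ?_
  simp only [Function.comp_apply]
  rw [mul_pow, ← pow_mul, pow_succ y r]
  push_cast
  field_simp

theorem W_aux (k r N : ℕ) (hr : r = Nat.sqrt k) (h1 : 1 ≤ r) (hN : N = 92) :
    W k ≤ ((65 * (r + 1) ^ 4) ^ N) ^ r := by
  unfold W
  have h6 : k < (r + 1) ^ 2 := by rw [hr]; exact Nat.lt_succ_sqrt' k
  rw [← hr, ← pow_mul]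
  have e2 : 8 * k + 1 ≤ 8 * (r + 1) ^ 2 := by omega
  have e3 := Nat.pow_le_pow_left e2 2
  have e4 : (8 * (r + 1) ^ 2) ^ 2 = 64 * (r + 1) ^ 4 := by ring
  have e5 : 1 ≤ (r + 1) ^ 4 := Nat.one_le_pow _ _ (by omega)
  have e6 : (8 * k + 1) ^ 2 + 1 ≤ 65 * (r + 1) ^ 4 := by omega
  have e7 : 36 * r + 56 ≤ N * r := by subst hN; omega
  exact (Nat.pow_le_pow_left e6 _).trans (Nat.pow_le_pow_right (by omega) e7)

/-- The sum of the bounds converges. -/
theorem summable_W {x : ℝ} (h0 : 0 < x) (h1 : x < 1) : Summable (fun k => (W k : ℝ) * x ^ k) := by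
  obtain ⟨y, hy0, hy1, hy2⟩ : ∃ y : ℝ, 0 < y ∧ y < 1 ∧ y ^ 2 = x := by
    refine ⟨Real.sqrt x, Real.sqrt_pos.2 h0, ?_, Real.sq_sqrt h0.le⟩
    rw [Real.sqrt_lt' one_pos]; simpa using h1
  obtain ⟨N, hN⟩ : ∃ N : ℕ, N = 92 := ⟨_, rfl⟩
  have hlim := lim_aux hy0 hy1 N
  have hev : ∀ᶠ r : ℕ in atTop, (65 * ((r : ℝ) + 1) ^ 4) ^ N * y ^ r ≤ 1 := by
    filter_upwards [hlim.eventually (gt_mem_nhds (zero_lt_one' ℝ))] with r hr
    exact hr.le
  obtain ⟨r0, hr0⟩ := eventually_atTop.1 hev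
  have hbd : ∀ k : ℕ, (r0 + 1) ^ 2 ≤ k → (W k : ℝ) * x ^ k ≤ y ^ k := by
    intro k hk
    obtain ⟨r, hr⟩ : ∃ r, r = Nat.sqrt k := ⟨_, rfl⟩
    have h5 : r ^ 2 ≤ k := by rw [hr]; exact Nat.sqrt_le' k
    have h7 : r0 + 1 ≤ r := by
      rw [hr, Nat.le_sqrt']; exact hk
    have h8 := hr0 r (by omega)
    have h9 : ((W k : ℕ) : ℝ) ≤ ((65 * ((r : ℝ) + 1) ^ 4) ^ N) ^ r := by
      have e1 := W_aux k r N hr (by omega) hN
      have e2 : ((W k : ℕ) : ℝ) ≤ (((65 * (r + 1) ^ 4) ^ N) ^ r : ℕ) := Nat.cast_le.2 e1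
      refine e2.trans (le_of_eq ?_)
      push_cast
      rfl
    obtain ⟨A, hA⟩ : ∃ A : ℝ, A = (65 * ((r : ℝ) + 1) ^ 4) ^ N := ⟨_, rfl⟩
    have hA0 : 0 ≤ A := by rw [hA]; positivity
    rw [← hA] at h8 h9
    have h10 : A ^ r * y ^ (r ^ 2) ≤ 1 := by
      have : A ^ r * y ^ (r ^ 2) = (A * y ^ r) ^ r := by
        rw [mul_pow, ← pow_mul y, sq]
      rw [this]
      exact pow_le_one₀ (by positivity) h8
    calc (W k : ℝ) * x ^ k = (W k : ℝ) * y ^ (2 * k) := by rw [← hy2, ← pow_mul]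
      _ ≤ A ^ r * y ^ (2 * k) :=
          mul_le_mul_of_nonneg_right h9 (by positivity)
      _ = A ^ r * y ^ (r ^ 2) * y ^ (2 * k - r ^ 2) := by
          rw [mul_assoc, ← pow_add]
          congr 2
          omega
      _ ≤ 1 * y ^ (2 * k - r ^ 2) := mul_le_mul_of_nonneg_right h10 (by positivity)
      _ ≤ y ^ k := by
          rw [one_mul]
          exact pow_le_pow_of_le_one hy0.le hy1.le (by omega)
  refine Summable.of_norm_bounded_eventually_nat (summable_geometric_of_lt_one hy0.le hy1) ?_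
  filter_upwards [eventually_ge_atTop ((r0 + 1) ^ 2)] with k hk
  rw [Real.norm_of_nonneg (mul_nonneg (Nat.cast_nonneg _) (pow_nonneg h0.le _))]
  exact hbd k hk

end Pool.Agent.Q291.SAP
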