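import Pool.Agent.Q291.SAP.G

/-!
# The limit law of the area
-/

set_option autoImplicit false

open Finset Filter Topology

namespace Pool.Agent.Q291.SAP

variable {F : ℕ → Set (Finset Pt)}

/-- The partition function of the fixed perimeter ensemble. -/
noncomputable def Z (F : ℕ → Set (Finset Pt)) (q : ℝ) (m : ℕ) : ℝ :=
  ∑' n, (count F m n : ℝ) * q ^ n

/-- The probability that the area `X_m` is `n`. -/
noncomputable def law (F : ℕ → Set (Finset Pt)) (q : ℝ) (m n : ℕ) : ℝ :=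
  (count F m n : ℝ) * q ^ n / Z F q m

/-- The limit law of `⌊m²/4⌋ - X_m` for `m` even (`e = 0`) or odd (`e = 1`). -/
noncomputable def limLaw (q : ℝ) (e k : ℕ) : ℝ :=
  (num e k : ℝ) * q⁻¹ ^ k / ∑' j, (num e j : ℝ) * q⁻¹ ^ j

/-- The weight of deficit `k`. -/
noncomputable def R (F : ℕ → Set (Finset Pt)) (x : ℝ) (m k : ℕ) : ℝ :=
  if k ≤ m ^ 2 / 4 then (count F m (m ^ 2 / 4 - k) : ℝ) * x ^ k else 0

theorem R_nonneg {x : ℝ} (h0 : 0 < x) (m k : ℕ) : 0 ≤ R F x m k := by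
  unfold R
  split_ifs
  · exact mul_nonneg (Nat.cast_nonneg _) (pow_nonneg h0.le _)
  · exact le_rfl

/-- The dominating sequence. -/
noncomputable def Bnd (x : ℝ) (k : ℕ) : ℝ :=
  (num 0 k : ℝ) * x ^ k + (num 1 k : ℝ) * x ^ k + (W k : ℝ) * x ^ k

theorem summable_Bnd {x : ℝ} (h0 : 0 < x) (h1 : x < 1) : Summable (Bnd x) :=
  ((summable_num h0 h1 (by norm_num)).add (summable_num h0 h1 le_rfl)).add (summable_W h0 h1)

theorem R_le_Bnd (hF : Model F) {x : ℝ} (h0 : 0 < x) {m : ℕ} (hm : 3 ≤ m) (k : ℕ) : R F x m k ≤ Bnd x k := by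
  have hx : 0 ≤ x ^ k := pow_nonneg h0.le _
  have n0 : 0 ≤ (num 0 k : ℝ) * x ^ k := mul_nonneg (Nat.cast_nonneg _) hx
  have n1 : 0 ≤ (num 1 k : ℝ) * x ^ k := mul_nonneg (Nat.cast_nonneg _) hx
  have n2 : 0 ≤ (W k : ℝ) * x ^ k := mul_nonneg (Nat.cast_nonneg _) hx
  unfold R Bnd
  split_ifs with hk
  · rcases Nat.lt_or_ge m (8 * k) with h8 | h8
    · have h := count_le_W hF hm hk h8
      have : (count F m (m ^ 2 / 4 - k) : ℝ) * x ^ k ≤ (W k : ℝ) * x ^ k :=
        mul_le_mul_of_nonneg_right (Nat.cast_le.2 h) hx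
      linarith
    · obtain ⟨s, e, he, hs⟩ : ∃ s e, e ≤ 1 ∧ m = 2 * s + e := ⟨m / 2, m % 2, by omega, by omega⟩
      subst hs
      rw [quarter he] at hk ⊢
      have h := count_le_num hF he h8 hm hk
      have h' : (count F (2 * s + e) (s ^ 2 + e * s - k) : ℝ) * x ^ k ≤ (num e k : ℝ) * x ^ k :=
        mul_le_mul_of_nonneg_right (Nat.cast_le.2 h) hx
      have he' : e = 0 ∨ e = 1 := by omega
      rcases he' with rfl | rfl
      · linarith
      · linarith
  · linarith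

theorem tendsto_R (hF : Model F) (x : ℝ) {e : ℕ} (he : e ≤ 1) (k : ℕ) :
    Tendsto (fun s => R F x (2 * s + e) k) atTop (𝓝 ((num e k : ℝ) * x ^ k)) := by
  apply tendsto_const_nhds.congr'
  filter_upwards [eventually_ge_atTop (8 * k + 2)] with s hs
  have hk : k ≤ s ^ 2 + e * s := by
    have : k ≤ s ^ 2 := by nlinarith
    omega
  unfold R
  rw [quarter he, if_pos hk]
  have h1 := num_le_count hF (s := s) (k := k) he (by omega)
  have h2 := count_le_num hF (s := s) (k := k) he (by omega) (by omega) hk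
  rw [le_antisymm h1 h2]

/-- Convergence with polynomially growing weights. -/
theorem tendsto_weights (hF : Model F) {x : ℝ} (h0 : 0 < x) (h1 : x < 1) {e : ℕ} (he : e ≤ 1) (j : ℕ) :
    Summable (fun k : ℕ => (k : ℝ) ^ j * ((num e k : ℝ) * x ^ k)) ∧
    Tendsto (fun s => ∑' k : ℕ, (k : ℝ) ^ j * R F x (2 * s + e) k) atTop
      (𝓝 (∑' k : ℕ, (k : ℝ) ^ j * ((num e k : ℝ) * x ^ k))) := by
  obtain ⟨y, hy1, hy2⟩ := exists_between h1
  have hy0 : 0 < y := h0.trans hy1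
  -- k^j x^k ≤ C y^k
  have hlim := tendsto_pow_const_mul_const_pow_of_abs_lt_one j (r := x / y)
    (by rw [abs_of_pos (by positivity), div_lt_one hy0]; exact hy1)
  obtain ⟨C, hC⟩ := hlim.bddAbove_range
  have hC' : ∀ k : ℕ, (k : ℝ) ^ j * x ^ k ≤ C * y ^ k := by
    intro k
    have h2 : (k : ℝ) ^ j * (x / y) ^ k ≤ C := hC ⟨k, rfl⟩
    have h3 : (k : ℝ) ^ j * x ^ k = (k : ℝ) ^ j * (x / y) ^ k * y ^ k := by
      rw [mul_assoc, ← mul_pow, div_mul_cancel₀ _ hy0.ne']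
    rw [h3]
    exact mul_le_mul_of_nonneg_right h2 (pow_nonneg hy0.le _)
  have hB : ∀ k : ℕ, (k : ℝ) ^ j * Bnd x k ≤ C * Bnd y k := by
    intro k
    unfold Bnd
    have g : ∀ a : ℝ, 0 ≤ a → (k : ℝ) ^ j * (a * x ^ k) ≤ C * (a * y ^ k) := by
      intro a ha
      have := mul_le_mul_of_nonneg_left (hC' k) ha
      linarith
    have g0 := g (num 0 k) (Nat.cast_nonneg _)
    have g1 := g (num 1 k) (Nat.cast_nonneg _)
    have g2 := g (W k) (Nat.cast_nonneg _)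
    linarith
  have hsum : Summable (fun k => C * Bnd y k) := (summable_Bnd hy0 hy2).mul_left C
  have hkj : ∀ k : ℕ, 0 ≤ (k : ℝ) ^ j := fun k => pow_nonneg (Nat.cast_nonneg _) _
  constructor
  · refine Summable.of_nonneg_of_le
      (fun k => mul_nonneg (hkj k) (mul_nonneg (Nat.cast_nonneg _) (pow_nonneg h0.le _))) ?_ hsum
    intro k
    refine le_trans ?_ (hB k)
    refine mul_le_mul_of_nonneg_left ?_ (hkj k)
    have hx : 0 ≤ x ^ k := pow_nonneg h0.le _
    have n0 : 0 ≤ (num 0 k : ℝ) * x ^ k := mul_nonneg (Nat.cast_nonneg _) hx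
    have n1 : 0 ≤ (num 1 k : ℝ) * x ^ k := mul_nonneg (Nat.cast_nonneg _) hx
    have n2 : 0 ≤ (W k : ℝ) * x ^ k := mul_nonneg (Nat.cast_nonneg _) hx
    unfold Bnd
    have he' : e = 0 ∨ e = 1 := by omega
    rcases he' with rfl | rfl
    · linarith
    · linarith
  · refine tendsto_tsum_of_dominated_convergence hsum (fun k => (tendsto_R hF x he k).const_mul _) ?_
    filter_upwards [eventually_ge_atTop 3] with s hs k
    rw [Real.norm_of_nonneg (mul_nonneg (hkj k) (R_nonneg h0 _ _))]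
    exact (mul_le_mul_of_nonneg_left (R_le_Bnd hF h0 (by omega) k) (hkj k)).trans (hB k)

theorem R_eq_zero {x : ℝ} {m k : ℕ} (hk : m ^ 2 / 4 < k) : R F x m k = 0 := by
  unfold R
  rw [if_neg (by omega)]

/-- Change of variables `n = ⌊m²/4⌋ - k`. -/
theorem tsum_area (hF : Model F) (q : ℝ) (hq : 0 < q) {m : ℕ} (hm : 1 ≤ m) (f : ℕ → ℝ) :
    ∑' n, f n * ((count F m n : ℝ) * q ^ n) =
      q ^ (m ^ 2 / 4) * ∑' k, f (m ^ 2 / 4 - k) * R F q⁻¹ m k := by
  rw [tsum_eq_sum (s := range (m ^ 2 / 4 + 1)), tsum_eq_sum (s := range (m ^ 2 / 4 + 1)),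
    mul_sum, ← sum_range_reflect]
  · refine sum_congr rfl fun k hk => ?_
    rw [mem_range] at hk
    have e1 : m ^ 2 / 4 + 1 - 1 - k = m ^ 2 / 4 - k := by omega
    rw [e1]
    unfold R
    rw [if_pos (by omega)]
    have e2 : q ^ (m ^ 2 / 4) * q⁻¹ ^ k = q ^ (m ^ 2 / 4 - k) := by
      rw [inv_pow, pow_sub₀ _ hq.ne' (by omega)]
    rw [← e2]
    ring
  · intro k hk
    rw [mem_range, not_lt] at hk
    rw [R_eq_zero (by omega), mul_zero]
  · intro n hn
    rw [mem_range, not_lt] at hn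
    rw [count_eq_zero hF hm (by omega)]
    simp

theorem Z_eq (hF : Model F) (q : ℝ) (hq : 0 < q) {m : ℕ} (hm : 1 ≤ m) :
    Z F q m = q ^ (m ^ 2 / 4) * ∑' k, R F q⁻¹ m k := by
  have h := tsum_area hF q hq hm (fun _ => 1)
  simpa [Z] using h

theorem lim_pos {x : ℝ} (h0 : 0 < x) (h1 : x < 1) {e : ℕ} (he : e ≤ 1) :
    0 < ∑' k, (num e k : ℝ) * x ^ k := by
  refine (summable_num h0 h1 he).tsum_pos
    (fun k => mul_nonneg (Nat.cast_nonneg _) (pow_nonneg h0.le _)) 0 ?_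
  have := num_zero_pos he
  have h : (0 : ℝ) < num e 0 := by exact_mod_cast this
  simpa using h

/-- Moments of the deficit. -/
theorem tendsto_moments (hF : Model F) {q : ℝ} (hq : 1 < q) {e : ℕ} (he : e ≤ 1) (j : ℕ) :
    Tendsto (fun s => ∑' n, (((s ^ 2 + e * s - n : ℕ) : ℝ)) ^ j * law F q (2 * s + e) n) atTop
      (𝓝 (∑' k : ℕ, (k : ℝ) ^ j * limLaw q e k)) := by
  have hq0 : 0 < q := by linarith
  have h0 : 0 < q⁻¹ := inv_pos.2 hq0
  have h1 : q⁻¹ < 1 := inv_lt_one_of_one_lt₀ hq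
  have hT := (tendsto_weights hF h0 h1 he j).2
  have hZ := (tendsto_weights hF h0 h1 he 0).2
  simp only [pow_zero, one_mul] at hZ
  have hdiv := hT.div hZ (lim_pos h0 h1 he).ne'
  have e1 : ∑' k : ℕ, (k : ℝ) ^ j * limLaw q e k =
      (∑' k : ℕ, (k : ℝ) ^ j * ((num e k : ℝ) * q⁻¹ ^ k)) / ∑' k, (num e k : ℝ) * q⁻¹ ^ k := by
    rw [← tsum_div_const]
    refine tsum_congr fun k => ?_
    rw [limLaw]; ring
  rw [e1]
  refine hdiv.congr' ?_
  filter_upwards [eventually_ge_atTop 1] with s hs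
  simp only [Pi.div_apply]
  have hm : 1 ≤ 2 * s + e := by omega
  have e2 := tsum_area hF q hq0 hm (fun n => ((s ^ 2 + e * s - n : ℕ) : ℝ) ^ j)
  have e3 : ∑' n, (((s ^ 2 + e * s - n : ℕ) : ℝ)) ^ j * law F q (2 * s + e) n =
      (∑' n, (((s ^ 2 + e * s - n : ℕ) : ℝ)) ^ j * ((count F (2 * s + e) n : ℝ) * q ^ n)) /
        Z F q (2 * s + e) := by
    rw [← tsum_div_const]
    refine tsum_congr fun k => ?_
    rw [law]; ring
  rw [e3, e2, Z_eq hF q hq0 hm, mul_div_mul_left _ _ (pow_pos hq0 _).ne']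
  congr 1
  refine tsum_congr fun k => ?_
  rcases Nat.lt_or_ge ((2 * s + e) ^ 2 / 4) k with hk | hk
  · rw [R_eq_zero hk, mul_zero, mul_zero]
  · rw [quarter he] at hk ⊢
    rw [Nat.sub_sub_self hk]

/-- The limit law. -/
theorem tendsto_law (hF : Model F) {q : ℝ} (hq : 1 < q) {e : ℕ} (he : e ≤ 1) (k : ℕ) :
    Tendsto (fun s => law F q (2 * s + e) (s ^ 2 + e * s - k)) atTop (𝓝 (limLaw q e k)) := by
  have hq0 : 0 < q := by linarith
  have h0 : 0 < q⁻¹ := inv_pos.2 hq0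
  have h1 : q⁻¹ < 1 := inv_lt_one_of_one_lt₀ hq
  have hZ := (tendsto_weights hF h0 h1 he 0).2
  simp only [pow_zero, one_mul] at hZ
  have hdiv := (tendsto_R hF q⁻¹ he k).div hZ (lim_pos h0 h1 he).ne'
  refine hdiv.congr' ?_
  filter_upwards [eventually_ge_atTop (k + 1)] with s hs
  have hm : 1 ≤ 2 * s + e := by omega
  have hk : k ≤ s ^ 2 + e * s := by
    have : k ≤ s ^ 2 := by nlinarith
    omega
  simp only [Pi.div_apply]
  rw [law, Z_eq hF q hq0 hm, R, quarter he, if_pos hk]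
  have e2 : q ^ (s ^ 2 + e * s - k) = q ^ (s ^ 2 + e * s) * q⁻¹ ^ k := by
    rw [inv_pow, pow_sub₀ _ hq0.ne' hk]
  rw [e2, mul_left_comm, mul_div_mul_left _ _ (pow_pos hq0 _).ne']

theorem hasSum_limLaw {q : ℝ} (hq : 1 < q) {e : ℕ} (he : e ≤ 1) : HasSum (limLaw q e) 1 := by
  have hq0 : 0 < q := by linarith
  have h0 : 0 < q⁻¹ := inv_pos.2 hq0
  have h1 : q⁻¹ < 1 := inv_lt_one_of_one_lt₀ hq
  have h := (summable_num h0 h1 he).hasSum.div_const (∑' k, (num e k : ℝ) * q⁻¹ ^ k)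
  rw [div_self (lim_pos h0 h1 he).ne'] at h
  exact h

theorem limLaw_zero_pos {q : ℝ} (hq : 1 < q) {e : ℕ} (he : e ≤ 1) : 0 < limLaw q e 0 := by
  have hq0 : 0 < q := by linarith
  have h0 : 0 < q⁻¹ := inv_pos.2 hq0
  have h1 : q⁻¹ < 1 := inv_lt_one_of_one_lt₀ hq
  unfold limLaw
  refine div_pos ?_ (lim_pos h0 h1 he)
  have := num_zero_pos he
  have h : (0 : ℝ) < num e 0 := by exact_mod_cast this
  simpa using h

/-! ### The partition function is positive -/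

theorem count_max_pos (hF : Model F) {m : ℕ} (hm : 2 ≤ m) : 1 ≤ count F m (m ^ 2 / 4) := by
  obtain ⟨s, e, he, hs⟩ : ∃ s e, e ≤ 1 ∧ m = 2 * s + e := ⟨m / 2, m % 2, by omega, by omega⟩
  have hs1 : 1 ≤ s := by omega
  rw [count, Nat.one_le_iff_ne_zero, Ne, Set.ncard_eq_zero (set_finite hF (by omega) _)]
  intro h
  have ht : total (fun _ : Bool × Bool => (⊥ : YoungDiagram)) = 0 := by simp [total]
  have h1 : cut (s + e) s (fun _ => ⊥) ∈ {S | S ∈ F m ∧ S.card = m ^ 2 / 4} := by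
    refine ⟨?_, ?_⟩
    · have := hF.lower (s + e) s (fun _ => ⊥) (by omega) (by omega)
      have e1 : s + e + s = m := by omega
      rwa [e1] at this
    · have := card_cut (a := s + e) (b := s) (l := fun _ => ⊥) (by omega) (by omega)
      rw [ht, add_zero] at this
      rw [this, hs, quarter he]; ring
  rw [h] at h1
  exact h1

theorem summable_counts (hF : Model F) {m : ℕ} (hm : 1 ≤ m) (q : ℝ) (f : ℕ → ℝ) :
    Summable (fun n => f n * ((count F m n : ℝ) * q ^ n)) := by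
  apply summable_of_ne_finset_zero (s := range (m ^ 2 / 4 + 1))
  intro n hn
  rw [mem_range, not_lt] at hn
  rw [count_eq_zero hF hm (by omega)]
  simp

theorem Z_pos (hF : Model F) {q : ℝ} (hq : 0 < q) {m : ℕ} (hm : 2 ≤ m) : 0 < Z F q m := by
  have h := summable_counts hF (m := m) (by omega) q (fun _ => 1)
  simp only [one_mul] at h
  refine h.tsum_pos (fun n => mul_nonneg (Nat.cast_nonneg _) (pow_nonneg hq.le _)) (m ^ 2 / 4) ?_
  have h2 : (0 : ℝ) < count F m (m ^ 2 / 4) := by exact_mod_cast count_max_pos hF hm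
  positivity

theorem law_nonneg (hF : Model F) {q : ℝ} (hq : 0 < q) {m : ℕ} (hm : 2 ≤ m) (n : ℕ) : 0 ≤ law F q m n :=
  div_nonneg (mul_nonneg (Nat.cast_nonneg _) (pow_nonneg hq.le _)) (Z_pos hF hq hm).le

theorem hasSum_law (hF : Model F) {q : ℝ} (hq : 0 < q) {m : ℕ} (hm : 2 ≤ m) : HasSum (law F q m) 1 := by
  have h := summable_counts hF (m := m) (by omega) q (fun _ => 1)
  simp only [one_mul] at h
  have h2 := h.hasSum.div_const (Z F q m)
  rw [Z, div_self] at h2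
  · exact h2
  · exact (Z_pos hF hq hm).ne'

end Pool.Agent.Q291.SAP
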