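import Pool.Agent.Q291.SAP.H

/-!
# The limit law is not Gaussian under any normalisation
-/

set_option autoImplicit false

open Finset Filter Topology MeasureTheory ProbabilityTheory

namespace Pool.Agent.Q291.SAP

variable {F : ℕ → Set (Finset Pt)}

/-- `P((X_m - u) / v ≤ t)` for the area `X_m`. -/
noncomputable def distr (F : ℕ → Set (Finset Pt)) (q : ℝ) (m : ℕ) (u v t : ℝ) : ℝ :=
  open Classical in ∑' n : ℕ, if ((n : ℝ) - u) / v ≤ t then law F q m n else 0

theorem gaussian_lt_one (t : ℝ) : cdf (gaussianReal 0 1) t < 1 := by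
  have h1 := cdf_eq_real (gaussianReal 0 1) t
  rw [h1]
  by_contra hcon
  rw [not_lt] at hcon
  have h2 : (gaussianReal 0 1).real (Set.Iic t) = 1 := le_antisymm measureReal_le_one hcon
  have h3 : (gaussianReal 0 1).real (Set.Iic t)ᶜ = 0 := by
    rw [probReal_compl_eq_one_sub measurableSet_Iic, h2, sub_self]
  have h4 : (gaussianReal 0 1) (Set.Iic t)ᶜ = 0 := by
    rw [measureReal_def, ENNReal.toReal_eq_zero_iff] at h3
    rcases h3 with h3 | h3
    · exact h3
    · exact absurd h3 (measure_ne_top _ _)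
  have h5 : (volume : Measure ℝ) (Set.Iic t)ᶜ = 0 :=
    gaussianReal_absolutelyContinuous' 0 (by norm_num) h4
  rw [Set.compl_Iic, Real.volume_Ioi] at h5
  exact absurd h5 (by simp)

theorem atom_bound (hF : Model F) {q : ℝ} (hq : 1 < q) :
    ∃ c : ℝ, 0 < c ∧ ∃ m0, ∀ m, m0 ≤ m → c ≤ law F q m (m ^ 2 / 4) := by
  have p0 := limLaw_zero_pos hq (e := 0) (by norm_num)
  have p1 := limLaw_zero_pos hq (e := 1) le_rfl
  obtain ⟨c, hc0, hc1⟩ := exists_between (lt_min p0 p1)
  have h0 := (tendsto_law hF hq (e := 0) (by norm_num) 0).eventually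
    (lt_mem_nhds (hc1.trans_le (min_le_left _ _)))
  have h1 := (tendsto_law hF hq (e := 1) le_rfl 0).eventually
    (lt_mem_nhds (hc1.trans_le (min_le_right _ _)))
  obtain ⟨s0, hs0⟩ := eventually_atTop.1 h0
  obtain ⟨s1, hs1⟩ := eventually_atTop.1 h1
  refine ⟨c, hc0, 2 * (s0 + s1) + 1, fun m hm => ?_⟩
  obtain ⟨s, e, he, hs⟩ : ∃ s e, e ≤ 1 ∧ m = 2 * s + e := ⟨m / 2, m % 2, by omega, by omega⟩
  subst hs
  rw [quarter he]
  have he' : e = 0 ∨ e = 1 := by omega
  rcases he' with rfl | rfl
  · exact (hs0 s (by omega)).le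
  · exact (hs1 s (by omega)).le

theorem law_eq_zero (hF : Model F) {q : ℝ} {m n : ℕ} (hm : 1 ≤ m) (hn : m ^ 2 / 4 < n) : law F q m n = 0 := by
  rw [law, count_eq_zero hF hm hn]
  simp

theorem distr_le (hF : Model F) {q : ℝ} (hq : 0 < q) {m : ℕ} (hm : 2 ≤ m) {u v t : ℝ} (hv : 0 ≤ v)
    (h : distr F q m u v t < 1) : distr F q m u v t ≤ 1 - law F q m (m ^ 2 / 4) := by
  classical
  have hs := (hasSum_law hF hq hm).summable
  have hn := law_nonneg hF hq hm
  by_cases hM : (((m ^ 2 / 4 : ℕ) : ℝ) - u) / v ≤ t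
  · exfalso
    have h1 : distr F q m u v t = 1 := by
      rw [distr, ← (hasSum_law hF hq hm).tsum_eq]
      refine tsum_congr fun n => ?_
      rcases Nat.lt_or_ge (m ^ 2 / 4) n with hn | hn
      · rw [law_eq_zero hF (by omega) hn]
        simp
      · rw [if_pos]
        refine le_trans ?_ hM
        apply div_le_div_of_nonneg_right _ hv
        have : (n : ℝ) ≤ ((m ^ 2 / 4 : ℕ) : ℝ) := by exact_mod_cast hn
        linarith
    linarith
  · have h1 : ∀ n : ℕ, (if ((n : ℝ) - u) / v ≤ t then law F q m n else 0) +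
        (if n = m ^ 2 / 4 then law F q m n else 0) ≤ law F q m n := by
      intro n
      by_cases hn2 : n = m ^ 2 / 4
      · subst hn2
        rw [if_neg hM, if_pos rfl, zero_add]
      · rw [if_neg hn2, add_zero]
        split_ifs
        · exact le_rfl
        · exact hn n
    have s1 : Summable (fun n : ℕ => if ((n : ℝ) - u) / v ≤ t then law F q m n else 0) := by
      refine Summable.of_nonneg_of_le (fun n => ?_) (fun n => ?_) hs
      · split_ifs
        · exact hn n
        · exact le_rfl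
      · split_ifs
        · exact le_rfl
        · exact hn n
    have s2 : HasSum (fun n : ℕ => if n = m ^ 2 / 4 then law F q m n else 0)
        (law F q m (m ^ 2 / 4)) := by
      have h5 := hasSum_ite_eq (m ^ 2 / 4) (law F q m (m ^ 2 / 4))
      have h6 : (fun n : ℕ => if n = m ^ 2 / 4 then law F q m n else 0) =
          fun n : ℕ => if n = m ^ 2 / 4 then law F q m (m ^ 2 / 4) else 0 := by
        funext n
        split_ifs with h7
        · rw [h7]
        · rfl
      rw [h6]
      exact h5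
    have h2 := (s1.hasSum.add s2).tsum_eq
    have h3 := (s1.hasSum.add s2).summable.tsum_le_tsum h1 hs
    rw [h2, (hasSum_law hF hq hm).tsum_eq] at h3
    rw [distr]
    linarith

/-- No normalisation gives a Gaussian limit, along no subsequence. -/
theorem not_gaussian (hF : Model F) {q : ℝ} (hq : 1 < q) (φ : ℕ → ℕ) (hφ : Tendsto φ atTop atTop)
    (u v : ℕ → ℝ) (hv : ∀ i, 0 ≤ v i) :
    ¬ ∀ t, Tendsto (fun i => distr F q (φ i) (u i) (v i) t) atTop
      (𝓝 (cdf (gaussianReal 0 1) t)) := by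
  intro h
  have hq0 : 0 < q := by linarith
  obtain ⟨c, hc, m0, hm0⟩ := atom_bound hF hq
  have key : ∀ t, cdf (gaussianReal 0 1) t ≤ 1 - c := by
    intro t
    refine le_of_tendsto (h t) ?_
    filter_upwards [(h t).eventually (gt_mem_nhds (gaussian_lt_one t)),
      hφ.eventually (eventually_ge_atTop (m0 + 2))] with i hi hi2
    have h1 := distr_le hF hq0 (m := φ i) (by omega) (hv i) hi
    have h2 := hm0 (φ i) (by omega)
    linarith
  have h3 := tendsto_cdf_atTop (gaussianReal 0 1)
  have h4 : (1 : ℝ) ≤ 1 - c := le_of_tendsto h3 (Eventually.of_forall key)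
  linarith

end Pool.Agent.Q291.SAP
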