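import Pool.Agent.Q291.SAP.I

/-!
# The limit of the random polygon itself
-/

set_option autoImplicit false

open Finset Filter Topology

namespace Pool.Agent.Q291.SAP

variable {F : ℕ → Set (Finset Pt)}

/-- The probability of the member `S` in the fixed perimeter ensemble. -/
noncomputable def polyLaw (F : ℕ → Set (Finset Pt)) (q : ℝ) (m : ℕ) (S : Finset Pt) : ℝ :=
  open Classical in if S ∈ F m then q ^ S.card / Z F q m else 0

/-- The Gibbs law on pairs of an integer `t` and four Young diagrams with weights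
`q ^ -(t² + e t + total number of cells)`. -/
noncomputable def gibbs (q : ℝ) (e : ℕ) (y : ℤ × (Bool × Bool → YoungDiagram)) : ℝ :=
  q⁻¹ ^ defect e y / ∑' z, q⁻¹ ^ defect e z

theorem tsum_defect {x : ℝ} (h0 : 0 < x) (h1 : x < 1) {e : ℕ} (he : e ≤ 1) :
    ∑' y, x ^ defect e y = ∑' k, (num e k : ℝ) * x ^ k := by
  have h2 := summable_defect h0 h1 he
  have h2' := (Equiv.sigmaFiberEquiv (defect e)).summable_iff.2 h2
  rw [← (Equiv.sigmaFiberEquiv (defect e)).tsum_eq]
  refine h2'.tsum_sigma.trans (tsum_congr fun k => ?_)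
  have h4 : ∀ c : {y // defect e y = k},
      ((fun y : ℤ × (Bool × Bool → YoungDiagram) => x ^ defect e y) ∘
        (Equiv.sigmaFiberEquiv (defect e))) ⟨k, c⟩ = x ^ k := by
    rintro ⟨c, hc⟩
    simp only [Function.comp_apply, Equiv.sigmaFiberEquiv, Equiv.coe_fn_mk, hc]
  rw [tsum_congr h4, tsum_const, nsmul_eq_mul]
  congr 2
  unfold num
  apply Nat.card_congr
  exact Equiv.subtypeEquivRight fun y => defect_iff he k y

theorem hasSum_gibbs {q : ℝ} (hq : 1 < q) {e : ℕ} (he : e ≤ 1) : HasSum (gibbs q e) 1 := by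
  have hq0 : 0 < q := by linarith
  have h0 : 0 < q⁻¹ := inv_pos.2 hq0
  have h1 : q⁻¹ < 1 := inv_lt_one_of_one_lt₀ hq
  have h := (summable_defect h0 h1 he).hasSum.div_const (∑' z, q⁻¹ ^ defect e z)
  rw [div_self] at h
  · exact h
  · rw [tsum_defect h0 h1 he]
    exact (lim_pos h0 h1 he).ne'

/-- Limit of the random polygon. -/
theorem tendsto_polyLaw (hF : Model F) {q : ℝ} (hq : 1 < q) {e : ℕ} (he : e ≤ 1)
    (y : ℤ × (Bool × Bool → YoungDiagram)) :
    Tendsto (fun s : ℕ => polyLaw F q (2 * s + e)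
      (cut ((s : ℤ) + e + y.1).toNat ((s : ℤ) - y.1).toNat y.2)) atTop (𝓝 (gibbs q e y)) := by
  have hq0 : 0 < q := by linarith
  have h0 : 0 < q⁻¹ := inv_pos.2 hq0
  have h1 : q⁻¹ < 1 := inv_lt_one_of_one_lt₀ hq
  have hZ := (tendsto_weights hF h0 h1 he 0).2
  simp only [pow_zero, one_mul] at hZ
  have hdiv := (tendsto_const_nhds (x := q⁻¹ ^ defect e y)).div hZ (lim_pos h0 h1 he).ne'
  rw [gibbs, tsum_defect h0 h1 he]
  refine hdiv.congr' ?_
  filter_upwards [eventually_ge_atTop (3 * defect e y + 2)] with s hs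
  have hm : 1 ≤ 2 * s + e := by omega
  have g1 := toNat_ge e he y.1
  have g2 : (y.1 ^ 2 + e * y.1).toNat + total y.2 = defect e y := rfl
  have hmem := hF.lower ((s : ℤ) + e + y.1).toNat ((s : ℤ) - y.1).toNat y.2
    (by omega) (by omega)
  have h3 : ((s : ℤ) + e + y.1).toNat + ((s : ℤ) - y.1).toNat = 2 * s + e := by omega
  rw [h3] at hmem
  have hcard := card_cut (l := y.2) (a := ((s : ℤ) + e + y.1).toNat)
    (b := ((s : ℤ) - y.1).toNat) (by omega) (by omega)
  have hk : defect e y ≤ s ^ 2 + e * s := by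
    have : defect e y ≤ s ^ 2 := by nlinarith
    omega
  have h4 : ((((s : ℤ) + e + y.1).toNat * ((s : ℤ) - y.1).toNat : ℕ) : ℤ) =
      ((s : ℤ) + e + y.1) * ((s : ℤ) - y.1) := by
    rw [Nat.cast_mul, Int.toNat_of_nonneg (by omega), Int.toNat_of_nonneg (by omega)]
  have h5 : (cut ((s : ℤ) + e + y.1).toNat ((s : ℤ) - y.1).toNat y.2).card =
      s ^ 2 + e * s - defect e y := by
    have e1 : (((cut ((s : ℤ) + e + y.1).toNat ((s : ℤ) - y.1).toNat y.2).card : ℕ) : ℤ) +
        total y.2 = ((s : ℤ) + e + y.1) * ((s : ℤ) - y.1) := by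
      rw [← h4, ← hcard]; push_cast; ring
    have e2 : ((s : ℤ) + e + y.1) * ((s : ℤ) - y.1) =
        s ^ 2 + e * s - (y.1 ^ 2 + e * y.1) := by ring
    have e3 := (defect_iff he (defect e y) y).1 rfl
    have e4 : ((s ^ 2 + e * s - defect e y : ℕ) : ℤ) = s ^ 2 + e * s - defect e y := by
      rw [Nat.cast_sub hk]; push_cast; ring
    have e5 : (((cut ((s : ℤ) + e + y.1).toNat ((s : ℤ) - y.1).toNat y.2).card : ℕ) : ℤ) =
        ((s ^ 2 + e * s - defect e y : ℕ) : ℤ) := by
      rw [e4, ← e3]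
      rw [e2] at e1
      linarith
    exact_mod_cast e5
  simp only [Pi.div_apply]
  rw [polyLaw, if_pos hmem, Z_eq hF q hq0 hm, quarter he, h5]
  have e2 : q ^ (s ^ 2 + e * s - defect e y) = q ^ (s ^ 2 + e * s) * q⁻¹ ^ defect e y := by
    rw [inv_pow, pow_sub₀ _ hq0.ne' hk]
  rw [e2, mul_div_mul_left _ _ (pow_pos hq0 _).ne']

/-- `law` is the law of the area under `polyLaw`. -/
theorem law_eq_sum (hF : Model F) (q : ℝ) {m : ℕ} (hm : 1 ≤ m) (n : ℕ) :
    law F q m n = ∑ S ∈ (model_finite hF hm).toFinset.filter (fun S => S.card = n),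
      polyLaw F q m S := by
  classical
  have h1 : ∀ S ∈ (model_finite hF hm).toFinset.filter (fun S => S.card = n),
      polyLaw F q m S = q ^ n / Z F q m := by
    intro S hS
    rw [mem_filter, Set.Finite.mem_toFinset] at hS
    rw [polyLaw, if_pos hS.1, hS.2]
  rw [sum_congr rfl h1, sum_const, nsmul_eq_mul, law, count]
  have h2 : (set_finite hF hm n).toFinset =
      (model_finite hF hm).toFinset.filter (fun S => S.card = n) := by
    ext S
    rw [Set.Finite.mem_toFinset, mem_filter, Set.Finite.mem_toFinset]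
    rfl
  rw [Set.ncard_eq_toFinset_card _ (set_finite hF hm n), h2, mul_div_assoc]

end Pool.Agent.Q291.SAP
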